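import Pool.Agent.NH34.WZ.StmN

set_option autoImplicit false

/-!
WZ-N1 (helper22): elementary properties of `FB` and `F2`.
-/

namespace Pool.Agent.NH34.WZ

open Finset
open Pool.Agent.NH99.WZ

namespace N1

theorem wal_zero (m i : ℕ) : wal m 0 i = 1 := by
  unfold wal
  refine Finset.prod_eq_one fun k _ => ?_
  simp

theorem tele2 (I J : ℕ) (f : ℕ → ℕ → ℝ) :
    ∑ i ∈ range I, ∑ j ∈ range J, (f (i + 1) (j + 1) - f (i + 1) j - f i (j + 1) + f i j) =
      f I J - f I 0 - f 0 J + f 0 0 := by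
  have h1 : ∀ i ∈ range I, ∑ j ∈ range J, (f (i + 1) (j + 1) - f (i + 1) j - f i (j + 1) + f i j) =
      (f (i + 1) J - f (i + 1) 0) - (f i J - f i 0) := by
    intro i _
    rw [← Finset.sum_range_sub (fun j => f (i + 1) j) J, ← Finset.sum_range_sub (fun j => f i j) J,
      ← Finset.sum_sub_distrib]
    refine Finset.sum_congr rfl fun j _ => ?_
    ring
  rw [Finset.sum_congr rfl h1, Finset.sum_range_sub (fun i => f i J - f i 0) I]
  ring

end N1

theorem t_FB (hO : S_OPT) : S_FB := by
  obtain ⟨o1, o2, -, o4, -, o6, o7, -, -, -, -, -, -⟩ := hO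
  refine ⟨?_, ?_, ?_, ?_, ?_, ?_, ?_, ?_, ?_, ?_, ?_⟩
  · intro m I J T G κ h a ha
    exact o7 _ _ _ _ (h a ha)
  · intro m I J T I' J' G κ κ' h hκ hI hJ a ha
    exact o6 _ _ _ _ _ _ hI hJ (o1 _ _ _ _ _ (h a ha) hκ)
  · intro m I J T G G' κ h hG a ha
    refine o2 _ _ _ _ _ (fun i hi j hj => ?_) (h a ha)
    refine Finset.sum_congr rfl fun τ hτ => ?_
    rw [mem_range] at hτ
    rw [hG i hi j hj (τ + 1) hτ, hG i hi j hj τ hτ.le]
  · intro m I J T G G' κ κ' h h' a ha
    refine o2 _ _ _ _ _ (fun i _ j _ => ?_) (o4 _ _ _ _ _ _ (h a ha) (h' a ha))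
    rw [← Finset.sum_add_distrib]
    refine Finset.sum_congr rfl fun τ _ => ?_
    ring
  · intro m I J T G κ h a ha x z
    refine le_trans (le_of_eq ?_) (h a ha x z)
    rw [← abs_neg, ← Finset.sum_neg_distrib]
    congr 1
    refine Finset.sum_congr rfl fun i _ => ?_
    rw [← Finset.sum_neg_distrib]
    refine Finset.sum_congr rfl fun j _ => ?_
    rw [← mul_neg, ← Finset.sum_neg_distrib]
    congr 1
    refine Finset.sum_congr rfl fun τ _ => ?_
    ring
  · intro m I J T G κ h h0
    refine o2 _ _ _ _ _ (fun i hi j hj => ?_) (h 0 (by positivity))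
    simp only [N1.wal_zero, one_mul]
    rw [Finset.sum_range_sub (fun τ => G i j τ) T, h0 i hi j hj, sub_zero]
  · intro m I J f κ h a ha b hb
    refine le_trans (le_of_eq ?_) (h b hb a ha)
    rw [Finset.sum_comm]
    congr 1
    refine Finset.sum_congr rfl fun i _ => Finset.sum_congr rfl fun j _ => ?_
    ring
  · intro m I J f g κ κ' h hκ hfg a ha b hb
    refine le_trans (le_of_eq ?_) ((h a ha b hb).trans hκ)
    congr 1
    refine Finset.sum_congr rfl fun i hi => Finset.sum_congr rfl fun j hj => ?_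
    rw [mem_range] at hi hj
    rw [hfg (i + 1) hi (j + 1) hj, hfg (i + 1) hi j hj.le, hfg i hi.le (j + 1) hj,
      hfg i hi.le j hj.le]
  · intro m I J f κ c h a ha b hb
    have e : ∑ i ∈ range I, ∑ j ∈ range J, wal m a i * wal m b j *
        (c * f (i + 1) (j + 1) - c * f (i + 1) j - c * f i (j + 1) + c * f i j) =
        c * ∑ i ∈ range I, ∑ j ∈ range J, wal m a i * wal m b j *
        (f (i + 1) (j + 1) - f (i + 1) j - f i (j + 1) + f i j) := by
      rw [Finset.mul_sum]
      refine Finset.sum_congr rfl fun i _ => ?_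
      rw [Finset.mul_sum]
      refine Finset.sum_congr rfl fun j _ => ?_
      ring
    rw [e, abs_mul]
    exact mul_le_mul_of_nonneg_left (h a ha b hb) (abs_nonneg c)
  · intro m I J f g κ κ' h h' a ha b hb
    have e : ∑ i ∈ range I, ∑ j ∈ range J, wal m a i * wal m b j *
        ((f (i + 1) (j + 1) + g (i + 1) (j + 1)) - (f (i + 1) j + g (i + 1) j) -
          (f i (j + 1) + g i (j + 1)) + (f i j + g i j)) =
        (∑ i ∈ range I, ∑ j ∈ range J, wal m a i * wal m b j *
        (f (i + 1) (j + 1) - f (i + 1) j - f i (j + 1) + f i j)) +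
        ∑ i ∈ range I, ∑ j ∈ range J, wal m a i * wal m b j *
        (g (i + 1) (j + 1) - g (i + 1) j - g i (j + 1) + g i j) := by
      rw [← Finset.sum_add_distrib]
      refine Finset.sum_congr rfl fun i _ => ?_
      rw [← Finset.sum_add_distrib]
      refine Finset.sum_congr rfl fun j _ => ?_
      ring
    rw [e]
    exact (abs_add_le _ _).trans (add_le_add (h a ha b hb) (h' a ha b hb))
  · intro m I J f κ h h1 h2
    have h3 := h 0 (by positivity) 0 (by positivity)
    simp only [N1.wal_zero, one_mul] at h3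
    rw [N1.tele2, h1 I, h2 J, h1 0, sub_zero, sub_zero, add_zero] at h3
    exact h3

end Pool.Agent.NH34.WZ
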