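import Pool.Agent.NH34.WZ.StmN

set_option autoImplicit false

/-!
# Project WZ, N10: one step beyond a good cell
-/

namespace Pool.Agent.NH34.WZ

open Finset
open Pool.Agent.NH99.WZ

namespace N10

lemma abs_div_le' {p a b c : ℝ} (hp : |p| ≤ b) (hc : 0 < c) (ha : c ≤ a) : |p / a| ≤ b / c := by
  rw [abs_div]
  have hb : 0 ≤ b := (abs_nonneg p).trans hp
  exact div_le_div₀ hb hp hc (ha.trans (le_abs_self a))

lemma one_add_ge {x a d : ℝ} (hx : x = 1 ∨ x = -1) (ha : |a| ≤ d) : 1 - d ≤ 1 + x * a := by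
  have h1 := (abs_le.1 ha).1
  have h2 := (abs_le.1 ha).2
  rcases hx with rfl | rfl <;> linarith

lemma one_add_le {x a d : ℝ} (hx : x = 1 ∨ x = -1) (ha : |a| ≤ d) : 1 + x * a ≤ 1 + d := by
  have h1 := (abs_le.1 ha).1
  have h2 := (abs_le.1 ha).2
  rcases hx with rfl | rfl <;> linarith

lemma abs_sgn_mul {x p : ℝ} (hx : x = 1 ∨ x = -1) : |x * p| = |p| := by
  rcases hx with rfl | rfl <;> simp

lemma sgn_abs {x : ℝ} (hx : x = 1 ∨ x = -1) : |x| = 1 := by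
  rcases hx with rfl | rfl <;> simp

lemma num_facts {m n : ℕ} {ρ β δ : ℝ} (h : Num m n ρ β δ) :
    0 < δ ∧ δ ≤ 1 / 1000 ∧ β ≤ δ / 20 ∧ ρ ≤ β / 8 := by
  have hb := h.beta
  have hd : 0 < δ := by linarith [h.hβ]
  have h1 : (1 : ℝ) ≤ ((m : ℝ) + 1) ^ 4 := one_le_pow₀ (by linarith [Nat.cast_nonneg (α := ℝ) m])
  have h2 : (1 : ℝ) ≤ Real.sqrt ((n : ℝ) + 2) :=
    Real.one_le_sqrt.2 (by linarith [Nat.cast_nonneg (α := ℝ) n])
  refine ⟨hd, ?_, by linarith [h.hβ], ?_⟩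
  · have := h.hδ
    nlinarith [mul_le_mul_of_nonneg_right h1 hd.le]
  · have := h.hρ
    nlinarith [mul_le_mul_of_nonneg_left h2 h.rho]

lemma thd_ne {t u : Fin 3} (h : t ≠ u) : u ≠ thd t u := by
  revert h
  fin_cases t <;> fin_cases u <;> decide

/-- the eighth corner is positive -/
lemma corner {x0 x1 x2 a0 a1 a2 p0 p1 p2 δ : ℝ} (h0 : x0 = 1 ∨ x0 = -1) (h1 : x1 = 1 ∨ x1 = -1)
    (h2 : x2 = 1 ∨ x2 = -1) (hd : 0 < δ) (hd' : δ ≤ 1 / 1000) (ha0 : |a0| ≤ δ) (ha1 : |a1| ≤ δ)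
    (ha2 : |a2| ≤ δ) (hp0 : |p0| ≤ δ / 10) (hp1 : |p1| ≤ δ / 10) (hp2 : |p2| ≤ δ / 10) :
    1 / 2 ≤ (1 + x0 * a0) * (1 + x1 * a1) * (1 + x2 * a2) + x1 * x2 * p0 * (1 + x0 * a0) +
      x2 * x0 * p1 * (1 + x1 * a1) + x0 * x1 * p2 * (1 + x2 * a2) := by
  have e0 := one_add_ge h0 ha0
  have e1 := one_add_ge h1 ha1
  have e2 := one_add_ge h2 ha2
  have f0 := one_add_le h0 ha0
  have f1 := one_add_le h1 ha1
  have f2 := one_add_le h2 ha2
  have g1 : 9 / 10 ≤ (1 + x0 * a0) * (1 + x1 * a1) * (1 + x2 * a2) := by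
    have k0 : 99 / 100 ≤ 1 + x0 * a0 := by linarith
    have k1 : 99 / 100 ≤ 1 + x1 * a1 := by linarith
    have k2 : 99 / 100 ≤ 1 + x2 * a2 := by linarith
    calc (9 / 10 : ℝ) ≤ 99 / 100 * (99 / 100) * (99 / 100) := by norm_num
      _ ≤ _ := by gcongr
  have g2 : ∀ x x' a p w : ℝ, (x = 1 ∨ x = -1) → (x' = 1 ∨ x' = -1) → (w = 1 ∨ w = -1) →
      |a| ≤ δ → |p| ≤ δ / 10 → -(1 / 100) ≤ x * x' * p * (1 + w * a) := by
    intro x x' a p w hx hx' hw ha hp
    have q1 : |x * x' * p * (1 + w * a)| ≤ δ / 10 * 2 := by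
      rw [abs_mul, abs_mul, abs_mul, sgn_abs hx, sgn_abs hx', one_mul, one_mul]
      have q2 : |1 + w * a| ≤ 2 := by
        rw [abs_le]
        have := one_add_ge hw ha
        have := one_add_le hw ha
        constructor <;> linarith
      exact mul_le_mul hp q2 (abs_nonneg _) (by linarith)
    have := (abs_le.1 q1).1
    linarith
  have g3 := g2 x1 x2 a0 p0 x0 h1 h2 h0 ha0 hp0
  have g4 := g2 x2 x0 a1 p1 x1 h2 h0 h1 ha1 hp1
  have g5 := g2 x0 x1 a2 p2 x2 h0 h1 h2 ha2 hp2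
  linarith

end N10

open N10 in
/-- WZ-N10: one step beyond a good cell -/
theorem t_POS1 (hR : S_REL) (hG : S_GFB) : S_POS1 := by
  intro m n ρ β δ X y q r hD hy hN hq hgood hr
  obtain ⟨R1, R2, R3, R4, -, -, R7⟩ := hR n X y hD
  obtain ⟨hp0, ha0, hP0⟩ := (hG m n ρ β δ X y q hD hN hq hgood).1 r hr
  obtain ⟨hd, hd', hb, hrho⟩ := num_facts hN
  have hbeta := hN.beta
  -- (1)
  have p1 : ∀ t, 0 < DD y (up r t) := by
    intro t
    rw [R2 t r hp0.ne']
    have := one_add_ge (hD.sgn t (r t)) (ha0 t)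
    exact mul_pos hp0 (by linarith)
  -- (4)
  have p4 : ∀ t u, t ≠ u → |AA X y t (up r u)| ≤ 2 * δ := by
    intro t u htu
    rw [R3 t u r htu hp0.ne' (p1 u).ne']
    have k1 := one_add_ge (hD.sgn u (r u)) (ha0 u)
    have k2 : |X u (r u) * PP X y (thd t u) r| ≤ 2 * β := by
      rw [abs_sgn_mul (hD.sgn u (r u))]
      exact hP0 _
    have k3 := abs_div_le' k2 (by linarith : (0 : ℝ) < 1 / 2)
      (by linarith : (1 / 2 : ℝ) ≤ 1 + X u (r u) * AA X y u r)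
    have k4 := abs_add_le (AA X y t r)
      (X u (r u) * PP X y (thd t u) r / (1 + X u (r u) * AA X y u r))
    have k5 := ha0 t
    linarith
  -- (2)
  have p2 : ∀ t u, t ≠ u → 0 < DD y (up (up r t) u) := by
    intro t u htu
    rw [R2 u (up r t) (p1 t).ne']
    have := one_add_ge (hD.sgn u ((up r t) u)) (p4 u t htu.symm)
    exact mul_pos (p1 t) (by linarith)
  -- (5)
  have p5 : ∀ w, |PP X y w (up r w)| ≤ 4 * β := by
    intro w
    rw [R4 w r hp0.ne' (p1 w).ne']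
    have k1 := one_add_ge (hD.sgn w (r w)) (ha0 w)
    have k2 : |PP X y (w + 2) r * PP X y (w + 1) r| ≤ (2 * β) * (2 * β) := by
      rw [abs_mul]
      exact mul_le_mul (hP0 _) (hP0 _) (abs_nonneg _) (by linarith)
    have k3 : (1 / 4 : ℝ) ≤ (1 + X w (r w) * AA X y w r) ^ 2 := by
      have : (1 / 2 : ℝ) ≤ 1 + X w (r w) * AA X y w r := by linarith
      nlinarith
    have k4 := abs_div_le' k2 (by norm_num : (0 : ℝ) < 1 / 4) k3
    have k5 : |X (w + 1) (r (w + 1)) * X (w + 2) (r (w + 2)) * y r| ≤ ρ := by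
      rw [mul_assoc, abs_sgn_mul (hD.sgn _ _), abs_sgn_mul (hD.sgn _ _)]
      exact hy r
    have k6 := abs_sub (PP X y w r + X (w + 1) (r (w + 1)) * X (w + 2) (r (w + 2)) * y r)
      (PP X y (w + 2) r * PP X y (w + 1) r / (1 + X w (r w) * AA X y w r) ^ 2)
    have k7 := abs_add_le (PP X y w r) (X (w + 1) (r (w + 1)) * X (w + 2) (r (w + 2)) * y r)
    have k8 := hP0 w
    have k9 : (2 * β) * (2 * β) / (1 / 4) ≤ β := by
      have : β ≤ 1 / 16 := by linarith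
      nlinarith
    linarith
  refine ⟨p1, p2, ?_, p4, p5, ?_⟩
  · -- (3)
    rw [R7 r hp0.ne']
    have k1 := corner (hD.sgn 0 (r 0)) (hD.sgn 1 (r 1)) (hD.sgn 2 (r 2)) hd hd' (ha0 0) (ha0 1)
      (ha0 2) ((hP0 0).trans (by linarith)) ((hP0 1).trans (by linarith))
      ((hP0 2).trans (by linarith))
    by_cases hs : ∑ i, r i = n
    · rw [R1 r (by omega), one_mul]
      have := (abs_le.1 (hy r)).1
      linarith
    · rw [hD.zero r hs, add_zero]
      exact mul_pos hp0 (by linarith)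
  · -- (6)
    intro t u htu
    constructor
    · have k1 := one_add_ge (hD.sgn u (r u)) (ha0 u)
      have k3 := abs_div_le' (hP0 (thd t u)) (by norm_num : (0 : ℝ) < 9 / 10)
        (by linarith : (9 / 10 : ℝ) ≤ 1 + X u (r u) * AA X y u r)
      unfold GG
      have k4 : 2 * β / (9 / 10) ≤ 3 * β := by
        rw [div_le_iff₀ (by norm_num)]
        linarith
      exact k3.trans k4
    · have k1 := one_add_ge (hD.sgn u ((up r (thd t u)) u)) (p4 u (thd t u) (thd_ne htu))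
      have k3 := abs_div_le' (p5 (thd t u)) (by norm_num : (0 : ℝ) < 9 / 10)
        (by linarith : (9 / 10 : ℝ) ≤ 1 + X u ((up r (thd t u)) u) * AA X y u (up r (thd t u)))
      unfold GG
      have k4 : 4 * β / (9 / 10) ≤ 5 * β := by
        rw [div_le_iff₀ (by norm_num)]
        linarith
      exact k3.trans k4

end Pool.Agent.NH34.WZ
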