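import Pool.Agent.NH34.WZ.StmN

set_option autoImplicit false

/-!
# Project WZ, N11 (helper82): the births one step beyond
-/

namespace Pool.Agent.NH34.WZ

open Finset
open Pool.Agent.NH99.WZ

namespace N11

/-- a matrix with at most one entry in each row and column -/
theorem anti (hO : S_OPT) (I J N : ℕ) (g : ℕ → ℕ → ℝ) (ρ : ℝ) (hρ : 0 ≤ ρ)
    (hg : ∀ i j, |g i j| ≤ ρ) (h0 : ∀ i j, i + j ≠ N → g i j = 0) : Op I J g ρ := by
  refine hO.2.2.2.2.2.2.2.2.2.2.1 I J g ρ hρ fun x => ?_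
  have key : ∀ j, (∑ i ∈ range I, x i * g i j) ^ 2 ≤
      ∑ i ∈ range I, x i ^ 2 * (if i + j = N then ρ ^ 2 else 0) := by
    intro j
    have hnn : ∀ i ∈ range I, 0 ≤ x i ^ 2 * (if i + j = N then ρ ^ 2 else 0) := by
      intro i _
      split_ifs <;> positivity
    by_cases hex : ∃ i0 ∈ range I, i0 + j = N
    · obtain ⟨i0, hi0, he⟩ := hex
      rw [Finset.sum_eq_single_of_mem i0 hi0]
      · refine le_trans ?_ (Finset.single_le_sum hnn hi0)
        rw [if_pos he, mul_pow]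
        refine mul_le_mul_of_nonneg_left ?_ (sq_nonneg _)
        exact sq_le_sq' (by linarith [(abs_le.1 (hg i0 j)).1]) (abs_le.1 (hg i0 j)).2
      · intro i _ hne
        rw [h0 i j (by omega), mul_zero]
    · rw [Finset.sum_eq_zero]
      · rw [zero_pow two_ne_zero]
        exact Finset.sum_nonneg hnn
      · intro i hi
        rw [h0 i j (fun h => hex ⟨i, hi, h⟩), mul_zero]
  calc ∑ j ∈ range J, (∑ i ∈ range I, x i * g i j) ^ 2
      ≤ ∑ j ∈ range J, ∑ i ∈ range I, x i ^ 2 * (if i + j = N then ρ ^ 2 else 0) :=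
        Finset.sum_le_sum fun j _ => key j
    _ = ∑ i ∈ range I, x i ^ 2 * ∑ j ∈ range J, (if i + j = N then ρ ^ 2 else 0) := by
        rw [Finset.sum_comm]
        refine Finset.sum_congr rfl fun i _ => ?_
        rw [Finset.mul_sum]
    _ ≤ ∑ i ∈ range I, x i ^ 2 * ρ ^ 2 := by
        refine Finset.sum_le_sum fun i _ => mul_le_mul_of_nonneg_left ?_ (sq_nonneg _)
        by_cases hex : ∃ j0 ∈ range J, i + j0 = N
        · obtain ⟨j0, hj0, he⟩ := hex
          rw [Finset.sum_eq_single_of_mem j0 hj0]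
          · rw [if_pos he]
          · intro j _ hne
            rw [if_neg (by omega)]
        · rw [Finset.sum_eq_zero]
          · positivity
          · intro j hj
            rw [if_neg (fun h => hex ⟨j, hj, h⟩)]
    _ = ρ ^ 2 * ∑ i ∈ range I, x i ^ 2 := by
        rw [Finset.mul_sum]
        exact Finset.sum_congr rfl fun i _ => by ring

/-- a matrix with one row -/
theorem row (hO : S_OPT) (I J i0 : ℕ) (g : ℕ → ℕ → ℝ) (ρ : ℝ) (hρ : 0 ≤ ρ)
    (hg : ∀ i j, |g i j| ≤ ρ) (h0 : ∀ i j, i ≠ i0 → g i j = 0) :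
    Op I J g (ρ * Real.sqrt J) := by
  refine hO.2.2.2.2.2.2.2.2.2.2.1 I J g _ (by positivity) fun x => ?_
  have hX : 0 ≤ ∑ i ∈ range I, x i ^ 2 := Finset.sum_nonneg fun i _ => sq_nonneg _
  have key : ∀ j, (∑ i ∈ range I, x i * g i j) ^ 2 ≤ ρ ^ 2 * ∑ i ∈ range I, x i ^ 2 := by
    intro j
    by_cases hex : i0 ∈ range I
    · rw [Finset.sum_eq_single_of_mem i0 hex]
      · have h1 : x i0 ^ 2 ≤ ∑ i ∈ range I, x i ^ 2 :=
          Finset.single_le_sum (f := fun i => x i ^ 2) (fun i _ => sq_nonneg _) hex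
        have h2 : g i0 j ^ 2 ≤ ρ ^ 2 :=
          sq_le_sq' (by linarith [(abs_le.1 (hg i0 j)).1]) (abs_le.1 (hg i0 j)).2
        calc (x i0 * g i0 j) ^ 2 = g i0 j ^ 2 * x i0 ^ 2 := by ring
          _ ≤ ρ ^ 2 * ∑ i ∈ range I, x i ^ 2 :=
            mul_le_mul h2 h1 (sq_nonneg _) (sq_nonneg _)
      · intro i _ hne
        rw [h0 i j hne, mul_zero]
    · rw [Finset.sum_eq_zero]
      · rw [zero_pow two_ne_zero]
        positivity
      · intro i hi
        rw [h0 i j (fun h => hex (h ▸ hi)), mul_zero]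
  calc ∑ j ∈ range J, (∑ i ∈ range I, x i * g i j) ^ 2
      ≤ ∑ _j ∈ range J, ρ ^ 2 * ∑ i ∈ range I, x i ^ 2 := Finset.sum_le_sum fun j _ => key j
    _ = (ρ * Real.sqrt J) ^ 2 * ∑ i ∈ range I, x i ^ 2 := by
        rw [Finset.sum_const, Finset.card_range, nsmul_eq_mul, mul_pow,
          Real.sq_sqrt (Nat.cast_nonneg _)]
        ring

/-- padding by zeros -/
theorem pad (I J A B : ℕ) (hA : A ≤ I) (hB : B ≤ J) (M : ℕ → ℕ → ℝ) (β : ℝ) (hβ : 0 ≤ β)
    (h : Op A B M β) : Op I J (fun i j => if i < A ∧ j < B then M i j else 0) β := by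
  intro x z
  have e : ∑ i ∈ range I, ∑ j ∈ range J, x i * z j * (if i < A ∧ j < B then M i j else 0) =
      ∑ i ∈ range A, ∑ j ∈ range B, x i * z j * M i j := by
    symm
    rw [← Finset.sum_subset (Finset.range_subset_range.2 hA)]
    · refine Finset.sum_congr rfl fun i hi => ?_
      rw [← Finset.sum_subset (Finset.range_subset_range.2 hB)]
      · refine Finset.sum_congr rfl fun j hj => ?_
        rw [if_pos ⟨Finset.mem_range.1 hi, Finset.mem_range.1 hj⟩]
      · intro j _ hj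
        rw [if_neg (fun h => hj (Finset.mem_range.2 h.2)), mul_zero]
    · intro i _ hi
      refine Finset.sum_eq_zero fun j _ => ?_
      rw [if_neg (fun h => hi (Finset.mem_range.2 h.1)), mul_zero]
  rw [e]
  refine (h x z).trans (mul_le_mul_of_nonneg_left ?_ hβ)
  refine mul_le_mul (Real.sqrt_le_sqrt ?_) (Real.sqrt_le_sqrt ?_) (Real.sqrt_nonneg _)
    (Real.sqrt_nonneg _)
  · exact Finset.sum_le_sum_of_subset_of_nonneg (Finset.range_subset_range.2 hA)
      fun i _ _ => sq_nonneg _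
  · exact Finset.sum_le_sum_of_subset_of_nonneg (Finset.range_subset_range.2 hB)
      fun i _ _ => sq_nonneg _

theorem sum_le (f : ℕ → ℕ → ℕ → ℝ) (n : ℕ) (ρ : ℝ) (hρ : 0 ≤ ρ) (hf : ∀ τ i j, |f τ i j| ≤ ρ)
    (h0 : ∀ τ i j, τ + i + j ≠ n → f τ i j = 0) (S i j : ℕ) :
    |∑ τ ∈ range S, f τ i j| ≤ ρ := by
  by_cases hex : ∃ t ∈ range S, t + i + j = n
  · obtain ⟨t, ht, he⟩ := hex
    rw [Finset.sum_eq_single_of_mem t ht]
    · exact hf t i j
    · intro t' _ hne
      exact h0 t' i j (by omega)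
  · rw [Finset.sum_eq_zero, abs_zero]
    · exact hρ
    · intro t ht
      exact h0 t i j (fun h => hex ⟨t, ht, h⟩)

theorem core (hO : S_OPT) (f : ℕ → ℕ → ℕ → ℝ) (n : ℕ) (ρ β : ℝ) (hρ : 0 ≤ ρ)
    (hf : ∀ τ i j, |f τ i j| ≤ ρ) (h0 : ∀ τ i j, τ + i + j ≠ n → f τ i j = 0)
    (A B L I J S : ℕ) (hA : A ≤ I) (hA' : I ≤ A + 1) (hB : B ≤ J) (hB' : J ≤ B + 1)
    (hL : L ≤ S) (hL' : S ≤ L + 1) (hI : I ≤ n + 1) (hJ : J ≤ n + 1) (hβ : 0 ≤ β)
    (h : Op (A + 1) (B + 1) (fun i j => ∑ τ ∈ range L, f τ i j) β) :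
    Op (I + 1) (J + 1) (fun i j => ∑ τ ∈ range S, f τ i j)
      (β + ρ + ρ * Real.sqrt ((n : ℝ) + 2) + ρ * Real.sqrt ((n : ℝ) + 2)) := by
  have mono := hO.1
  have congr := hO.2.1
  have add := hO.2.2.2.1
  have trans := hO.2.2.2.2.2.2.1
  -- the four parts
  have p1 := pad (I + 1) (J + 1) (A + 1) (B + 1) (by omega) (by omega) _ β hβ h
  have p2 : Op (I + 1) (J + 1)
      (fun i j => if (i < A + 1 ∧ j < B + 1) ∧ S = L + 1 then f L i j else 0) ρ := by
    by_cases hLn : L ≤ n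
    · refine anti hO _ _ (n - L) _ ρ hρ (fun i j => ?_) (fun i j hne => ?_)
      · split_ifs
        · exact hf L i j
        · rw [abs_zero]; exact hρ
      · split_ifs
        · exact h0 L i j (by omega)
        · rfl
    · refine anti hO _ _ 0 _ ρ hρ (fun i j => ?_) (fun i j hne => ?_)
      · split_ifs
        · exact hf L i j
        · rw [abs_zero]; exact hρ
      · split_ifs
        · exact h0 L i j (by omega)
        · rfl
  have p3 : Op (I + 1) (J + 1)
      (fun i j => if i = A + 1 then ∑ τ ∈ range S, f τ i j else 0)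
        (ρ * Real.sqrt ((n : ℝ) + 2)) := by
    refine mono _ _ _ _ _ (row hO (I + 1) (J + 1) (A + 1) _ ρ hρ (fun i j => ?_)
      (fun i j hne => ?_)) ?_
    · split_ifs
      · exact sum_le f n ρ hρ hf h0 S i j
      · rw [abs_zero]; exact hρ
    · rw [if_neg hne]
    · refine mul_le_mul_of_nonneg_left (Real.sqrt_le_sqrt ?_) hρ
      push_cast
      have : (J : ℝ) ≤ n + 1 := by exact_mod_cast hJ
      linarith
  have p4 : Op (I + 1) (J + 1)
      (fun i j => if i ≠ A + 1 ∧ j = B + 1 then ∑ τ ∈ range S, f τ i j else 0)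
        (ρ * Real.sqrt ((n : ℝ) + 2)) := by
    refine mono _ _ _ _ _ (trans _ _ _ _ (row hO (J + 1) (I + 1) (B + 1)
      (fun j i => if i ≠ A + 1 ∧ j = B + 1 then ∑ τ ∈ range S, f τ i j else 0) ρ hρ
      (fun i j => ?_) (fun i j hne => ?_))) ?_
    · split_ifs
      · exact sum_le f n ρ hρ hf h0 S j i
      · rw [abs_zero]; exact hρ
    · rw [if_neg (fun h => hne h.2)]
    · refine mul_le_mul_of_nonneg_left (Real.sqrt_le_sqrt ?_) hρ
      push_cast
      have : (I : ℝ) ≤ n + 1 := by exact_mod_cast hI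
      linarith
  refine congr _ _ _ _ _ ?_ (add _ _ _ _ _ _ (add _ _ _ _ _ _ (add _ _ _ _ _ _ p1 p2) p3) p4)
  intro i hi j hj
  by_cases hiA : i = A + 1
  · rw [if_neg (by omega), if_neg (by omega), if_pos hiA, if_neg (by omega)]
    ring
  · by_cases hjB : j = B + 1
    · rw [if_neg (by omega), if_neg (by omega), if_neg hiA, if_pos ⟨hiA, hjB⟩]
      ring
    · have h1 : i < A + 1 ∧ j < B + 1 := by omega
      by_cases hS : S = L + 1
      · rw [if_pos h1, if_pos ⟨h1, hS⟩, if_neg hiA, if_neg (fun h => hjB h.2), hS,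
          Finset.sum_range_succ]
        ring
      · rw [if_pos h1, if_neg (fun h => hS h.2), if_neg hiA, if_neg (fun h => hjB h.2)]
        have : S = L := by omega
        rw [this]
        ring

end N11

/-- WZ-N11 -/
theorem t_BB1 (hO : S_OPT) : S_BB1 := by
  intro m n ρ β X y q s hD hy hρ h8 hqs hs1 hsn hB w a ha
  have hsq : 1 ≤ Real.sqrt ((n : ℝ) + 2) := by
    rw [show (1 : ℝ) = Real.sqrt 1 by rw [Real.sqrt_one]]
    refine Real.sqrt_le_sqrt ?_
    have : (0 : ℝ) ≤ n := Nat.cast_nonneg _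
    linarith
  have hrs : ρ ≤ ρ * Real.sqrt ((n : ℝ) + 2) := by nlinarith
  have hβ : 0 ≤ β := by nlinarith
  have hwal : ∀ τ, |wal m a τ| = 1 := by
    intro τ
    unfold wal
    rw [Finset.abs_prod]
    refine Finset.prod_eq_one fun k _ => ?_
    split_ifs <;> simp
  have hX : ∀ i v, |X i v| = 1 := by
    intro i v
    rcases hD.sgn i v with h | h <;> rw [h] <;> simp
  have hcl : ∀ τ i j, ∑ k, cl w (w + 1) τ i j k = τ + i + j := by
    intro τ i j
    rw [Fin.sum_univ_three]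
    unfold cl
    fin_cases w <;> simp <;> ring
  refine hO.1 _ _ _ _ _ (N11.core hO
    (fun τ i j => wal m a τ * (X (w + 1) i * X (w + 2) j * y (cl w (w + 1) τ i j))) n ρ β hρ
    (fun τ i j => ?_) (fun τ i j hne => ?_) (q (w + 1)) (q (w + 2)) (q w) (s (w + 1)) (s (w + 2))
    (s w) (hqs _) (hs1 _) (hqs _) (hs1 _) (hqs _) (hs1 _) (hsn _) (hsn _) hβ (hB w a ha)) ?_
  · rw [abs_mul, abs_mul, abs_mul, hwal, hX, hX, one_mul, one_mul, one_mul]
    exact hy _
  · rw [hD.zero _ (by rw [hcl]; exact hne)]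
    ring
  · nlinarith

end Pool.Agent.NH34.WZ
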