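import Pool.Agent.NH34.WZ.StmN

set_option autoImplicit false

/-!
# Project WZ, job WZ-N12 (helper2): the biases one step beyond
-/

namespace Pool.Agent.NH34.WZ

open Finset
open Pool.Agent.NH99.WZ

namespace N12

theorem abs_wal (m a i : ℕ) : |wal m a i| = 1 := by
  unfold wal
  rw [Finset.abs_prod]
  refine Finset.prod_eq_one fun k _ => ?_
  split_ifs
  · rw [abs_neg, abs_one]
  · exact abs_one

theorem n1 (t : Fin 3) : t ≠ t + 1 := by revert t; decide
theorem n2 (t : Fin 3) : t ≠ t + 2 := by revert t; decide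
theorem n3 (t : Fin 3) : t + 1 ≠ t + 2 := by revert t; decide
theorem thd1 (t : Fin 3) : thd t (t + 1) = t + 2 := by revert t; decide
theorem thd2 (t : Fin 3) : thd t (t + 2) = t + 1 := by revert t; decide

theorem cases3 (t i : Fin 3) : i = t ∨ i = t + 1 ∨ i = t + 2 := by revert t i; decide

theorem cl_t (t : Fin 3) (v i j : ℕ) : cl t (t + 1) v i j t = v := by
  unfold cl
  rw [if_pos rfl]

theorem cl_u (t : Fin 3) (v i j : ℕ) : cl t (t + 1) v i j (t + 1) = i := by
  unfold cl
  rw [if_neg (n1 t).symm, if_pos rfl]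

theorem cl_w (t : Fin 3) (v i j : ℕ) : cl t (t + 1) v i j (t + 2) = j := by
  unfold cl
  rw [if_neg (n2 t).symm, if_neg (n3 t).symm]

theorem cl_le {t : Fin 3} {v i j : ℕ} {q : Ed} (hv : v ≤ q t) (hi : i ≤ q (t + 1))
    (hj : j ≤ q (t + 2)) : cl t (t + 1) v i j ≤ q := by
  intro k
  rcases cases3 t k with h | h | h <;> rw [h]
  · rw [cl_t]; exact hv
  · rw [cl_u]; exact hi
  · rw [cl_w]; exact hj

theorem up_u (t : Fin 3) (v i j : ℕ) :
    up (cl t (t + 1) v i j) (t + 1) = cl t (t + 1) v (i + 1) j := by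
  funext k
  unfold up
  rcases cases3 t k with h | h | h <;> rw [h]
  · rw [Function.update_of_ne (n1 t), cl_t, cl_t]
  · rw [Function.update_self, cl_u, cl_u]
  · rw [Function.update_of_ne (n3 t).symm, cl_w, cl_w]

theorem up_w (t : Fin 3) (v i j : ℕ) :
    up (cl t (t + 1) v i j) (t + 2) = cl t (t + 1) v i (j + 1) := by
  funext k
  unfold up
  rcases cases3 t k with h | h | h <;> rw [h]
  · rw [Function.update_of_ne (n2 t), cl_t, cl_t]
  · rw [Function.update_of_ne (n3 t), cl_u, cl_u]
  · rw [Function.update_self, cl_w, cl_w]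

theorem cl_swap (t : Fin 3) (v W τ : ℕ) : cl t (t + 2) v W τ = cl t (t + 1) v τ W := by
  funext k
  rcases cases3 t k with h | h | h <;> rw [h]
  · rw [cl_t]
    unfold cl
    rw [if_pos rfl]
  · rw [cl_u]
    unfold cl
    rw [if_neg (n1 t).symm, if_neg (n3 t)]
  · rw [cl_w]
    unfold cl
    rw [if_neg (n2 t).symm, if_pos rfl]

/-- the second difference -/
def D2 (A : ℕ → ℕ → ℝ) (i j : ℕ) : ℝ := A (i + 1) (j + 1) - A (i + 1) j - A i (j + 1) + A i j

end N12

open N12

theorem t_BS1 (hO : S_OPT) (hF : S_FB) (hR : S_REL) (hG : S_GFB) (hP1 : S_POS1) : S_BS1 := by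
  intro m n ρ β δ X y q s hD hy hN hqn hgood hqs hsq t v hv a ha b hb
  obtain ⟨hr1, hr2, hr3, -⟩ := hR n X y hD
  obtain ⟨hg1, hg2⟩ := hG m n ρ β δ X y q hD hN hqn hgood
  have hpos : ∀ r : Ed, r ≤ q → _ := fun r hr => hP1 m n ρ β δ X y q r hD hy hN hqn hgood hr
  have hvq : v ≤ q t := by
    have := hsq t
    omega
  have hX : ∀ i k, |X i k| = 1 := by
    intro i k
    rcases hD.sgn i k with h | h <;> rw [h]
    · exact abs_one
    · rw [abs_neg, abs_one]
  have hβ := hN.beta
  have hβδ := hN.hβ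
  set A : ℕ → ℕ → ℝ := fun i j => AA X y t (cl t (t + 1) v i j) with hA
  set U := q (t + 1) with hU
  set W := q (t + 2) with hW
  -- the increments in the direction u
  have du : ∀ j ≤ W, A (U + 1) j - A U j = X (t + 1) U * GG X y t (t + 1) (cl t (t + 1) v U j) := by
    intro j hj
    have hr : cl t (t + 1) v U j ≤ q := cl_le hvq le_rfl hj
    have h := hr3 t (t + 1) _ (n1 t) (hg1 _ hr).1.ne' ((hpos _ hr).1 (t + 1)).ne'
    rw [up_u, cl_u] at h
    rw [hA]
    dsimp only
    rw [h]
    unfold GG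
    rw [cl_u]
    ring
  have dw : ∀ i ≤ U, A i (W + 1) - A i W = X (t + 2) W * GG X y t (t + 2) (cl t (t + 1) v i W) := by
    intro i hi
    have hr : cl t (t + 1) v i W ≤ q := cl_le hvq hi le_rfl
    have h := hr3 t (t + 2) _ (n2 t) (hg1 _ hr).1.ne' ((hpos _ hr).1 (t + 2)).ne'
    rw [up_w, cl_w] at h
    rw [hA]
    dsimp only
    rw [h]
    unfold GG
    rw [cl_w]
    ring
  have hrq : cl t (t + 1) v U W ≤ q := cl_le hvq le_rfl le_rfl
  have duw : A (U + 1) (W + 1) - A U (W + 1) =
      X (t + 1) U * GG X y t (t + 1) (up (cl t (t + 1) v U W) (t + 2)) := by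
    have hp := hpos _ hrq
    have h := hr3 t (t + 1) (up (cl t (t + 1) v U W) (t + 2)) (n1 t) (hp.1 (t + 2)).ne'
      (hp.2.1 (t + 2) (t + 1) (n3 t).symm).ne'
    rw [up_w, up_u, cl_u] at h
    rw [hA]
    dsimp only
    rw [h]
    unfold GG
    rw [up_w, cl_u]
    ring
  -- the four parts
  have e0 : |∑ i ∈ range U, ∑ j ∈ range W, wal m a i * wal m b j * D2 A i j| ≤ δ :=
    (hgood q fun _ => le_rfl).2 t v hvq a ha b hb
  have e1 : |∑ j ∈ range W, wal m b j * D2 A U j| ≤ 3 * β := by
    have h1 := hg2 t (t + 1) (n1 t) b hb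
    have h2 := hO.2.2.2.2.2.2.2.1 _ _ _ _ h1 v (by omega) U (by omega)
    rw [thd1] at h2
    have h3 : ∑ j ∈ range W, wal m b j * D2 A U j = X (t + 1) U *
        ∑ τ ∈ range W, wal m b τ * (GG X y t (t + 1) (cl t (t + 1) v U (τ + 1)) -
          GG X y t (t + 1) (cl t (t + 1) v U τ)) := by
      rw [Finset.mul_sum]
      refine Finset.sum_congr rfl fun j hj => ?_
      rw [Finset.mem_range] at hj
      have k1 := du (j + 1) (by omega)
      have k2 := du j (by omega)
      unfold D2
      linear_combination wal m b j * k1 - wal m b j * k2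
    rw [h3, abs_mul, hX, one_mul]
    exact h2
  have e2 : |∑ i ∈ range U, wal m a i * D2 A i W| ≤ 3 * β := by
    have h1 := hg2 t (t + 2) (n2 t) a ha
    have h2 := hO.2.2.2.2.2.2.2.1 _ _ _ _ h1 v (by omega) W (by omega)
    rw [thd2] at h2
    simp only [cl_swap] at h2
    have h3 : ∑ i ∈ range U, wal m a i * D2 A i W = X (t + 2) W *
        ∑ τ ∈ range U, wal m a τ * (GG X y t (t + 2) (cl t (t + 1) v (τ + 1) W) -
          GG X y t (t + 2) (cl t (t + 1) v τ W)) := by
      rw [Finset.mul_sum]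
      refine Finset.sum_congr rfl fun i hi => ?_
      rw [Finset.mem_range] at hi
      have k1 := dw (i + 1) (by omega)
      have k2 := dw i (by omega)
      unfold D2
      linear_combination wal m a i * k1 - wal m a i * k2
    rw [h3, abs_mul, hX, one_mul]
    exact h2
  have e3 : |D2 A U W| ≤ 8 * β := by
    have k1 := du W le_rfl
    have hp := (hpos _ hrq).2.2.2.2.2 t (t + 1) (n1 t)
    rw [thd1] at hp
    have h3 : D2 A U W = X (t + 1) U * (GG X y t (t + 1) (up (cl t (t + 1) v U W) (t + 2)) -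
        GG X y t (t + 1) (cl t (t + 1) v U W)) := by
      unfold D2
      linear_combination duw - k1
    rw [h3, abs_mul, hX, one_mul]
    have := abs_sub (GG X y t (t + 1) (up (cl t (t + 1) v U W) (t + 2)))
      (GG X y t (t + 1) (cl t (t + 1) v U W))
    linarith [hp.1, hp.2]
  have key : ∀ I J : ℕ, (I = U ∨ I = U + 1) → (J = W ∨ J = W + 1) →
      |∑ i ∈ range I, ∑ j ∈ range J, wal m a i * wal m b j * D2 A i j| ≤ 2 * δ := by
    have f1 : ∑ i ∈ range U, ∑ j ∈ range (W + 1), wal m a i * wal m b j * D2 A i j =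
        ∑ i ∈ range U, ∑ j ∈ range W, wal m a i * wal m b j * D2 A i j +
          wal m b W * ∑ i ∈ range U, wal m a i * D2 A i W := by
      rw [Finset.mul_sum, ← Finset.sum_add_distrib]
      refine Finset.sum_congr rfl fun i _ => ?_
      rw [Finset.sum_range_succ]
      ring
    have f2 : ∑ j ∈ range W, wal m a U * wal m b j * D2 A U j =
        wal m a U * ∑ j ∈ range W, wal m b j * D2 A U j := by
      rw [Finset.mul_sum]
      exact Finset.sum_congr rfl fun j _ => by ring
    have a1 : |wal m b W * ∑ i ∈ range U, wal m a i * D2 A i W| ≤ 3 * β := by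
      rw [abs_mul, abs_wal, one_mul]
      exact e2
    have a2 : |wal m a U * ∑ j ∈ range W, wal m b j * D2 A U j| ≤ 3 * β := by
      rw [abs_mul, abs_wal, one_mul]
      exact e1
    have a3 : |wal m a U * wal m b W * D2 A U W| ≤ 8 * β := by
      rw [abs_mul, abs_mul, abs_wal, abs_wal, one_mul, one_mul]
      exact e3
    rintro I J (rfl | rfl) (rfl | rfl)
    · linarith
    · rw [f1]
      refine (abs_add_le _ _).trans ?_
      linarith
    · rw [Finset.sum_range_succ, f2]
      refine (abs_add_le _ _).trans ?_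
      linarith
    · rw [Finset.sum_range_succ, f1, Finset.sum_range_succ, f2]
      refine (abs_add_le _ _).trans ?_
      have g1 := abs_add_le (∑ i ∈ range U, ∑ j ∈ range W, wal m a i * wal m b j * D2 A i j)
        (wal m b W * ∑ i ∈ range U, wal m a i * D2 A i W)
      have g2 := abs_add_le (wal m a U * ∑ j ∈ range W, wal m b j * D2 A U j)
        (wal m a U * wal m b W * D2 A U W)
      linarith
  refine key (s (t + 1)) (s (t + 2)) ?_ ?_
  · have k1 : q (t + 1) ≤ s (t + 1) := hqs (t + 1)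
    have k2 := hsq (t + 1)
    omega
  · have k1 : q (t + 2) ≤ s (t + 2) := hqs (t + 2)
    have k2 := hsq (t + 2)
    omega

end Pool.Agent.NH34.WZ
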