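import Pool.Agent.NH34.WZ.N9

set_option autoImplicit false

/-!
# Project WZ: from the box conditions to `LV`
-/

namespace Pool.Agent.NH34.WZ

open Finset
open Pool.Agent.NH99.WZ

theorem t_LVF (_hO : S_OPT) (hF : S_FB) (hI : S_F2I) (hM : S_FBM) (hR : S_REL) (hP : S_PFB) :
    S_LVF := by
  intro m n ρ β δ X y s hD hN hs hall
  have hβ := hN.beta
  have hβδ := hN.hβ
  have hδ := hN.hδ
  have hδ0 : 0 < δ := by linarith
  have hm1 : 1 ≤ (m : ℝ) + 1 := by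
    have : (0 : ℝ) ≤ m := Nat.cast_nonneg m
    linarith
  have hm2 : 1 ≤ ((m : ℝ) + 1) ^ 2 := one_le_pow₀ hm1
  have hm24 : ((m : ℝ) + 1) ^ 2 ≤ ((m : ℝ) + 1) ^ 4 := pow_le_pow_right₀ hm1 (by norm_num)
  have hδ4 : 0 ≤ ((m : ℝ) + 1) ^ 4 * δ := by positivity
  have hδ2 : 1000 * (((m : ℝ) + 1) ^ 2 * δ) ≤ 1 := by
    have : ((m : ℝ) + 1) ^ 2 * δ ≤ ((m : ℝ) + 1) ^ 4 * δ := by gcongr
    linarith
  have hm2δ0 : 0 ≤ ((m : ℝ) + 1) ^ 2 * δ := by positivity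
  have hδ1 : 1000 * δ ≤ 1 := by
    have : 1 * δ ≤ ((m : ℝ) + 1) ^ 2 * δ := by gcongr
    linarith
  have hsm : ∀ i, s i < 2 ^ m := fun i => by
    have h1 := hs i
    have h2 := hN.hm
    omega
  obtain ⟨P1, P2, P3⟩ := hP m n (2 * β) (2 * δ) X y s hD (by linarith) (by linarith)
    (by linarith) hsm hall
  obtain ⟨-, -, -, -, R5, R6, -⟩ := hR n X y hD
  obtain ⟨-, B2, B3, B4, -, -⟩ := id hF
  refine ⟨fun r hr => P1 r hr, fun t r hr hrt => (P2 t r hr hrt).trans (by linarith),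
    fun t u htu => ?_⟩
  have hw := N9.thd_ne htu
  have hG0 := N9.pfam hF (P3 s le_rfl) htu
  have hG1 := B2 m _ _ _ (s t + 1) (s u) _ _ _ hG0 le_rfl le_rfl (Nat.le_succ _)
  have hz1 : ∀ i j, AA X y u (cl t u i j 0) = 0 := fun i j =>
    R5 u (thd t u) _ hw.2.symm (N9.cl_thd htu _ _ _)
  have hz2 : ∀ j τ, AA X y u (cl t u 0 j τ) = 0 := fun j τ =>
    R5 u t _ htu.symm (N9.cl_fst _ _ _ _ _)
  have hz3 : ∀ i j, PP X y (thd t u) (cl t u i j 0) = 0 := fun i j =>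
    R6 (thd t u) _ (N9.cl_thd htu _ _ _)
  have hh : ∀ j < s u,
      (∀ i, (fun j i τ => 1 / (1 - AA X y u (cl t u i j τ) ^ 2) - 1 : ℕ → ℕ → ℕ → ℝ) j i 0 = 0) ∧
      (∀ τ, (fun j i τ => 1 / (1 - AA X y u (cl t u i j τ) ^ 2) - 1 : ℕ → ℕ → ℕ → ℝ) j 0 τ = 0) ∧
      F2 m (s t) (s (thd t u))
        ((fun j i τ => 1 / (1 - AA X y u (cl t u i j τ) ^ 2) - 1 : ℕ → ℕ → ℕ → ℝ) j)
        (2 * δ) := by
    intro j hj
    refine ⟨fun i => by simp [hz1], fun τ => by simp [hz2], ?_⟩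
    have a1 := N9.afam hF htu ((hall s le_rfl).2 u j hj)
    exact (hI m (s t) (s (thd t u)) (fun i τ => AA X y u (cl t u i j τ)) (2 * δ)
      (by positivity) (hsm _) (hsm _) (fun i => hz1 i j) (fun τ => hz2 j τ) (by linarith)
      a1).2.2
  have hFB := hM m (s t) (s u) (s (thd t u))
    (fun i j τ => PP X y (thd t u) (cl t u i j τ))
    (fun j i τ => 1 / (1 - AA X y u (cl t u i j τ) ^ 2) - 1) (2 * (2 * β)) (2 * δ)
    (by positivity) (by positivity) (hsm _) (hsm _) hz3 hh hG1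
  have hadd := B4 m _ _ _ _ _ _ _ hG1 hFB
  refine B3 m _ _ _ _ _ _ (B2 m _ _ _ (s t + 1) (s u) _ _ (8 * β) hadd ?_ le_rfl le_rfl) ?_
  · have : ((m : ℝ) + 1) ^ 2 * δ * β ≤ 1 / 1000 * β := by
      apply mul_le_mul_of_nonneg_right _ hβ.le
      linarith
    nlinarith
  · intro i _ j _ τ _
    unfold gg
    ring

end Pool.Agent.NH34.WZ
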