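import Pool.Agent.NH34.WZ.StmN
import Pool.Agent.NH99.WZ.StmP

set_option autoImplicit false

/-!
# Project WZ: the deterministic statement from its parts
-/

namespace Pool.Agent.NH34.WZ

open Finset
open Pool.Agent.NH99.WZ

theorem num_of_prm {n m R : ℕ} {ρ β δ γ lam : ℝ} (h : Prm n m R ρ β δ γ lam) :
    Num m n ρ β δ := by
  obtain ⟨m1, m2, rho0, lam1, b1, g1, d1, small, rem⟩ := h
  have hs : 0 < Real.sqrt ((n : ℝ) + 2) := Real.sqrt_pos.2 (by positivity)
  have hρs : 0 < ρ * Real.sqrt ((n : ℝ) + 2) := mul_pos rho0 hs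
  have hβ : 0 < β := by rw [b1]; positivity
  have hm1 : (1 : ℝ) ≤ (m : ℝ) + 1 := by
    have : (0 : ℝ) ≤ (m : ℝ) := Nat.cast_nonneg m
    linarith
  have hp8 : (1 : ℝ) ≤ ((m : ℝ) + 1) ^ 8 := one_le_pow₀ hm1
  have hδ0 : 0 < δ := by
    rw [d1, g1]
    positivity
  refine ⟨rho0.le, hβ, ?_, ?_, ?_, m1⟩
  · rw [b1]
    nlinarith
  · rw [d1, g1]
    have h1 : lam * (64 * β) ≤ ((m : ℝ) + 1) ^ 8 * (lam * (64 * β)) :=
      le_mul_of_one_le_left (by positivity) hp8
    nlinarith [mul_le_mul_of_nonneg_right lam1 hβ.le]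
  · refine le_trans ?_ small
    have h4 : ((m : ℝ) + 1) ^ 4 ≤ ((m : ℝ) + 1) ^ 12 := pow_le_pow_right₀ hm1 (by norm_num)
    have h5 : ((m : ℝ) + 1) ^ 4 * δ ≤ ((m : ℝ) + 1) ^ 12 * δ :=
      mul_le_mul_of_nonneg_right h4 hδ0.le
    nlinarith [mul_pos (pow_pos (lt_of_lt_of_le one_pos hm1) 12) hδ0]

theorem t_DET (hF : S_FB) (hB : S_BB1) (hS : S_BS1) (hP1 : S_POS1) (hG : S_GFB)
    (hL : S_LVF) : S_DET := by
  intro n m R ρ β δ γ lam X y hprm hsg hy0 hyρ q hqn hgood
  have hnum := num_of_prm hprm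
  have hdat : Dat n X y := ⟨hsg, hy0⟩
  obtain ⟨hG1, -⟩ := hG m n ρ β δ X y q hdat hnum hqn hgood
  have hm1 : (1 : ℝ) ≤ (m : ℝ) + 1 := by
    have : (0 : ℝ) ≤ (m : ℝ) := Nat.cast_nonneg m
    linarith
  have hδ0 : 0 < δ := by
    have := hnum.hβ
    have := hnum.beta
    linarith
  have hδ1 : δ ≤ 1 / 1000 := by
    have h1 := hnum.hδ
    have h2 : (1 : ℝ) ≤ ((m : ℝ) + 1) ^ 4 := one_le_pow₀ hm1
    nlinarith
  have hβ1 : 20 * β ≤ δ := hnum.hβ
  refine ⟨?_, ?_, ?_⟩
  · intro s hs
    set r : Ed := fun i => min (s i) (q i) with hr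
    have hrq : r ≤ q := fun i => min_le_right _ _
    obtain ⟨hu, huu, h3, -⟩ := hP1 m n ρ β δ X y q r hdat hyρ hnum hqn hgood hrq
    have h0 := (hG1 r hrq).1
    have key : ∀ i, s i = r i ∨ s i = r i + 1 := by
      intro i
      have := hs i
      simp only [hr]
      omega
    rcases key 0 with k0 | k0 <;> rcases key 1 with k1 | k1 <;> rcases key 2 with k2 | k2
    · have : s = r := by funext i; fin_cases i <;> assumption
      rw [this]; exact h0
    · have : s = up r 2 := by
        funext i; fin_cases i <;> simp [up, Function.update, k0, k1, k2]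
      rw [this]; exact hu 2
    · have : s = up r 1 := by
        funext i; fin_cases i <;> simp [up, Function.update, k0, k1, k2]
      rw [this]; exact hu 1
    · have : s = up (up r 1) 2 := by
        funext i; fin_cases i <;> simp [up, Function.update, k0, k1, k2]
      rw [this]; exact huu 1 2 (by decide)
    · have : s = up r 0 := by
        funext i; fin_cases i <;> simp [up, Function.update, k0, k1, k2]
      rw [this]; exact hu 0
    · have : s = up (up r 0) 2 := by
        funext i; fin_cases i <;> simp [up, Function.update, k0, k1, k2]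
      rw [this]; exact huu 0 2 (by decide)
    · have : s = up (up r 0) 1 := by
        funext i; fin_cases i <;> simp [up, Function.update, k0, k1, k2]
      rw [this]; exact huu 0 1 (by decide)
    · have : s = fun i => r i + 1 := by
        funext i; fin_cases i <;> assumption
      rw [this]; exact h3
  · intro r hr t
    obtain ⟨-, hA, hP⟩ := hG1 r hr
    exact ⟨(hA t).trans (by linarith), (hP t).trans (by linarith)⟩
  · intro s hsn hsq _
    have hlv : LV m X y s (8 * β) := by
      refine hL m n ρ β δ X y s hdat hnum (fun i => (hsn i).trans (Nat.le_succ n)) ?_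
      intro r hr
      set q' : Ed := fun i => min (q i) (r i) with hq'
      have hq'q : ∀ i, q' i ≤ q i := fun i => min_le_left _ _
      have hq'r : q' ≤ r := fun i => min_le_right _ _
      have hgood' : Good m β δ X y q' := fun x hx => hgood x fun i => (hx i).trans (hq'q i)
      have hrq' : ∀ i, r i ≤ q' i + 1 := by
        intro i
        have h1 : r i ≤ s i := hr i
        have h2 : s i ≤ q i + 1 := hsq i
        simp only [hq']
        omega
      constructor
      · exact hB m n ρ β X y q' r hdat hyρ hnum.rho hnum.hρ hq'r hrq'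
          (fun i => ((hr i).trans (hsn i)).trans (Nat.le_succ n))
          (hgood' q' fun i => le_rfl).1
      · exact hS m n ρ β δ X y q' r hdat hyρ hnum (fun i => (hq'q i).trans (hqn i)) hgood' hq'r hrq'
    refine ⟨hlv.pos, hlv.small, fun t u htu => ?_⟩
    refine hF.2.1 m _ _ _ _ _ _ _ _ (hlv.fb t u htu) ?_ le_rfl le_rfl
    rw [hprm.g1]
    have := hnum.beta
    linarith

theorem t_DETF (hG : S_GFB) : S_DETF := by
  intro n m R ρ β δ γ lam X y hprm hsg hy0 hyρ q hqn hgood r hr t
  have hnum := num_of_prm hprm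
  have hdat : Dat n X y := ⟨hsg, hy0⟩
  obtain ⟨hG1, -⟩ := hG m n ρ β δ X y q hdat hnum hqn hgood
  obtain ⟨-, hA, hP⟩ := hG1 r hr
  have hm1 : (1 : ℝ) ≤ (m : ℝ) + 1 := by
    have : (0 : ℝ) ≤ (m : ℝ) := Nat.cast_nonneg m
    linarith
  have hβ := hnum.beta
  have hδ0 : 0 < δ := by
    have := hnum.hβ
    linarith
  have h2 : (1 : ℝ) ≤ ((m : ℝ) + 1) ^ 2 := one_le_pow₀ hm1
  refine ⟨(hA t).trans ?_, (hP t).trans (by linarith)⟩
  nlinarith

end Pool.Agent.NH34.WZ
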