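import Pool.Agent.NH34.WZ.StmN

set_option autoImplicit false

/-!
# Project WZ: Walsh expansion of functions with zero sides
-/

namespace Pool.Agent.NH34.WZ

open Finset Pool.Agent.NH99.WZ

namespace N2

/-- the mixed difference -/
noncomputable def Df (f : ℕ → ℕ → ℝ) (i j : ℕ) : ℝ :=
  f (i + 1) (j + 1) - f (i + 1) j - f i (j + 1) + f i j

theorem tele {f : ℕ → ℕ → ℝ} (h1 : ∀ i, f i 0 = 0) (h2 : ∀ j, f 0 j = 0) (i j : ℕ) :
    ∑ i' ∈ range i, ∑ j' ∈ range j, Df f i' j' = f i j := by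
  have e1 : ∀ i', ∑ j' ∈ range j, Df f i' j' = f (i' + 1) j - f i' j := by
    intro i'
    have e2 : ∀ j' ∈ range j, Df f i' j' =
        (fun k => f (i' + 1) k - f i' k) (j' + 1) - (fun k => f (i' + 1) k - f i' k) j' := by
      intro j' _
      show f (i' + 1) (j' + 1) - f (i' + 1) j' - f i' (j' + 1) + f i' j' =
        (f (i' + 1) (j' + 1) - f i' (j' + 1)) - (f (i' + 1) j' - f i' j')
      ring
    rw [sum_congr rfl e2, sum_range_sub (fun k => f (i' + 1) k - f i' k)]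
    show f (i' + 1) j - f i' j - (f (i' + 1) 0 - f i' 0) = _
    rw [h1, h1]
    ring
  rw [sum_congr rfl fun i' _ => e1 i', sum_range_sub (fun k => f k j), h2, sub_zero]

theorem ind {I i : ℕ} (hi : i ≤ I) (g : ℕ → ℝ) :
    ∑ i' ∈ range I, (if i' < i then (1 : ℝ) else 0) * g i' = ∑ i' ∈ range i, g i' := by
  have h2 : ∀ i' ∈ range I, (if i' < i then (1 : ℝ) else 0) * g i' = if i' < i then g i' else 0 := by
    intro i' _
    split_ifs
    · rw [one_mul]
    · rw [zero_mul]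
  rw [sum_congr rfl h2, ← sum_filter]
  refine sum_congr ?_ fun _ _ => rfl
  ext x
  rw [mem_filter, mem_range, mem_range]
  omega

/-- expansion in one variable -/
theorem exp1 {m : ℕ} {c : ℕ → ℕ → ℝ}
    (hc : ∀ i j, i < 2 ^ m → j < 2 ^ m → (if i < j then (1 : ℝ) else 0) =
      ∑ a ∈ range (2 ^ m), ∑ b ∈ range (2 ^ m), c a b * (wal m a i * wal m b j))
    {I i : ℕ} (hI : I < 2 ^ m) (hi : i ≤ I) (g : ℕ → ℝ) :
    ∑ i' ∈ range I, (if i' < i then (1 : ℝ) else 0) * g i' =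
      ∑ b ∈ range (2 ^ m), (∑ a ∈ range (2 ^ m), c a b * ∑ i' ∈ range I, wal m a i' * g i') *
        wal m b i := by
  have h4 : ∀ i' ∈ range I, (if i' < i then (1 : ℝ) else 0) * g i' =
      ∑ b ∈ range (2 ^ m), ∑ a ∈ range (2 ^ m), c a b * (wal m a i' * g i') * wal m b i := by
    intro i' hi'
    have h5 := mem_range.1 hi'
    rw [hc i' i (by omega) (by omega), sum_comm, sum_mul]
    refine sum_congr rfl fun a _ => ?_
    rw [sum_mul]
    exact sum_congr rfl fun b _ => by ring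
  rw [sum_congr rfl h4, sum_comm]
  refine sum_congr rfl fun b _ => ?_
  rw [sum_comm, sum_mul]
  refine sum_congr rfl fun a _ => ?_
  rw [mul_sum, sum_mul]

theorem main {m I J : ℕ} {c : ℕ → ℕ → ℝ}
    (hc : ∀ i j, i < 2 ^ m → j < 2 ^ m → (if i < j then (1 : ℝ) else 0) =
      ∑ a ∈ range (2 ^ m), ∑ b ∈ range (2 ^ m), c a b * (wal m a i * wal m b j))
    {f : ℕ → ℕ → ℝ} (hI : I < 2 ^ m) (hJ : J < 2 ^ m) (h1 : ∀ i, f i 0 = 0) (h2 : ∀ j, f 0 j = 0)
    {i j : ℕ} (hi : i ≤ I) (hj : j ≤ J) :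
    f i j = ∑ b ∈ range (2 ^ m), ∑ b' ∈ range (2 ^ m),
      (∑ a ∈ range (2 ^ m), ∑ a' ∈ range (2 ^ m), c a b * c a' b' *
        ∑ i' ∈ range I, ∑ j' ∈ range J, wal m a i' * wal m a' j' * Df f i' j') *
          (wal m b i * wal m b' j) := by
  have e1 : f i j = ∑ i' ∈ range I, (if i' < i then (1 : ℝ) else 0) *
      ∑ j' ∈ range J, (if j' < j then (1 : ℝ) else 0) * Df f i' j' := by
    rw [ind hi, ← tele h1 h2 i j]
    exact sum_congr rfl fun i' _ => (ind hj _).symm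
  have e2 : ∀ a, ∑ i' ∈ range I, wal m a i' *
      ∑ j' ∈ range J, (if j' < j then (1 : ℝ) else 0) * Df f i' j' =
      ∑ b' ∈ range (2 ^ m), (∑ a' ∈ range (2 ^ m), c a' b' *
        ∑ i' ∈ range I, ∑ j' ∈ range J, wal m a i' * wal m a' j' * Df f i' j') * wal m b' j := by
    intro a
    have e3 : ∑ i' ∈ range I, wal m a i' *
        ∑ j' ∈ range J, (if j' < j then (1 : ℝ) else 0) * Df f i' j' =
        ∑ j' ∈ range J, (if j' < j then (1 : ℝ) else 0) *
          ∑ i' ∈ range I, wal m a i' * Df f i' j' := by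
      simp only [mul_sum]
      rw [sum_comm]
      exact sum_congr rfl fun j' _ => sum_congr rfl fun i' _ => by ring
    rw [e3, exp1 hc hJ hj]
    refine sum_congr rfl fun b' _ => ?_
    congr 1
    refine sum_congr rfl fun a' _ => ?_
    congr 1
    rw [sum_comm]
    refine sum_congr rfl fun j' _ => ?_
    rw [mul_sum]
    exact sum_congr rfl fun i' _ => by ring
  rw [e1, exp1 hc hI hi]
  refine sum_congr rfl fun b _ => ?_
  rw [sum_congr rfl fun a _ => by rw [e2 a]]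
  have e4 : ∀ a ∈ range (2 ^ m), c a b * ∑ b' ∈ range (2 ^ m), (∑ a' ∈ range (2 ^ m), c a' b' *
        ∑ i' ∈ range I, ∑ j' ∈ range J, wal m a i' * wal m a' j' * Df f i' j') * wal m b' j =
      ∑ b' ∈ range (2 ^ m), (∑ a' ∈ range (2 ^ m), c a b * c a' b' *
        ∑ i' ∈ range I, ∑ j' ∈ range J, wal m a i' * wal m a' j' * Df f i' j') * wal m b' j := by
    intro a _
    rw [mul_sum]
    refine sum_congr rfl fun b' _ => ?_
    rw [← mul_assoc, mul_sum]
    congr 1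
    exact sum_congr rfl fun a' _ => by ring
  rw [sum_congr rfl e4, sum_comm, sum_mul]
  refine sum_congr rfl fun b' _ => ?_
  rw [← sum_mul]
  ring

end N2

open N2 in
theorem t_F2E (hT : S_THR) : S_F2E := by
  intro m I J f κ hκ hI hJ h1 h2 hf
  obtain ⟨⟨c, hc1, hc⟩, -, -, -, hw⟩ := hT m
  have habs : ∀ a i, |wal m a i| = 1 := by
    intro a i
    rcases hw a i with h | h <;> rw [h] <;> norm_num
  set H : ℕ → ℕ → ℝ := fun a a' => ∑ i' ∈ range I, ∑ j' ∈ range J,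
    wal m a i' * wal m a' j' * Df f i' j' with hH
  have hHκ : ∀ a < 2 ^ m, ∀ a' < 2 ^ m, |H a a'| ≤ κ := fun a ha a' ha' => hf a ha a' ha'
  set C : ℕ → ℕ → ℝ := fun b b' => ∑ a ∈ range (2 ^ m), ∑ a' ∈ range (2 ^ m),
    c a b * c a' b' * H a a' with hC
  have hexp : ∀ i ≤ I, ∀ j ≤ J, f i j =
      ∑ a ∈ range (2 ^ m), ∑ b ∈ range (2 ^ m), C a b * (wal m a i * wal m b j) :=
    fun i hi j hj => main hc hI hJ h1 h2 hi hj
  have hCb : ∀ b b', |C b b'| ≤ (∑ a ∈ range (2 ^ m), |c a b|) *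
      (∑ a' ∈ range (2 ^ m), |c a' b'|) * κ := by
    intro b b'
    rw [sum_mul_sum, sum_mul]
    refine (abs_sum_le_sum_abs _ _).trans (sum_le_sum fun a ha => ?_)
    rw [sum_mul]
    refine (abs_sum_le_sum_abs _ _).trans (sum_le_sum fun a' ha' => ?_)
    rw [abs_mul, abs_mul]
    exact mul_le_mul_of_nonneg_left (hHκ a (mem_range.1 ha) a' (mem_range.1 ha'))
      (mul_nonneg (abs_nonneg _) (abs_nonneg _))
  have hsum : ∑ a ∈ range (2 ^ m), ∑ b ∈ range (2 ^ m), |C a b| ≤ ((m : ℝ) + 1) ^ 2 * κ := by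
    have e1 : ∑ b ∈ range (2 ^ m), ∑ a ∈ range (2 ^ m), |c a b| ≤ m := by
      rw [sum_comm]
      exact hc1
    have e2 : ∑ a ∈ range (2 ^ m), ∑ b ∈ range (2 ^ m), |C a b| ≤
        (∑ b ∈ range (2 ^ m), ∑ a ∈ range (2 ^ m), |c a b|) *
          (∑ b ∈ range (2 ^ m), ∑ a ∈ range (2 ^ m), |c a b|) * κ := by
      rw [sum_mul_sum, sum_mul]
      refine sum_le_sum fun b _ => ?_
      rw [sum_mul]
      exact sum_le_sum fun b' _ => hCb b b'
    have e3 : 0 ≤ ∑ b ∈ range (2 ^ m), ∑ a ∈ range (2 ^ m), |c a b| :=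
      sum_nonneg fun _ _ => sum_nonneg fun _ _ => abs_nonneg _
    have hm : (0 : ℝ) ≤ m := Nat.cast_nonneg m
    refine e2.trans (mul_le_mul_of_nonneg_right ?_ hκ)
    nlinarith
  refine ⟨fun i hi j hj => ?_, C, hsum, hexp⟩
  rw [hexp i hi j hj]
  refine le_trans ?_ hsum
  refine (abs_sum_le_sum_abs _ _).trans (sum_le_sum fun a _ => ?_)
  refine (abs_sum_le_sum_abs _ _).trans (sum_le_sum fun b _ => ?_)
  rw [abs_mul, abs_mul, habs, habs, mul_one, mul_one]

end Pool.Agent.NH34.WZ
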