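import Pool.Agent.NH34.WZ.StmN

/-!
# Project WZ: the difference norm `F2` is an algebra norm
-/

set_option autoImplicit false

namespace Pool.Agent.NH34.WZ

open Finset
open Pool.Agent.NH99.WZ

namespace N3h

/-- the index set of the Walsh expansions -/
def Ix (m : ℕ) : Finset (ℕ × ℕ) := range (2 ^ m) ×ˢ range (2 ^ m)

theorem mem_Ix {m : ℕ} {k : ℕ × ℕ} : k ∈ Ix m ↔ k.1 < 2 ^ m ∧ k.2 < 2 ^ m := by
  unfold Ix
  rw [mem_product, mem_range, mem_range]

/-- thresholds -/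
def Kr (m : ℕ) (s : ℕ → ℕ → ℝ) : Prop := ∃ c : ℕ × ℕ → ℝ, ∑ k ∈ Ix m, |c k| ≤ (m : ℝ) + 1 ∧
  ∀ i' i, i' < 2 ^ m → i < 2 ^ m → s i' i = ∑ k ∈ Ix m, c k * (wal m k.1 i' * wal m k.2 i)

theorem kr_lt (hT : S_THR) (m : ℕ) : Kr m (fun i' i => if i' < i then 1 else 0) := by
  obtain ⟨⟨c, h1, h2⟩, -⟩ := hT m
  refine ⟨fun k => c k.1 k.2, ?_, ?_⟩
  · unfold Ix
    rw [sum_product]
    exact h1.trans (by linarith)
  · intro i' i hi' hi
    unfold Ix
    rw [sum_product]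
    exact h2 i' i hi' hi

theorem kr_le (hT : S_THR) (m : ℕ) : Kr m (fun i' i => if i' ≤ i then 1 else 0) := by
  obtain ⟨-, ⟨c, h1, h2⟩, -⟩ := hT m
  refine ⟨fun k => c k.1 k.2, ?_, ?_⟩
  · unfold Ix
    rw [sum_product]
    exact h1
  · intro i' i hi' hi
    unfold Ix
    rw [sum_product]
    exact h2 i' i hi' hi

theorem swap4 {α β γ δ : Type} (A : Finset α) (B : Finset β) (C : Finset γ) (D : Finset δ)
    (F : α → β → γ → δ → ℝ) :
    ∑ a ∈ A, ∑ b ∈ B, ∑ c ∈ C, ∑ d ∈ D, F a b c d =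
      ∑ c ∈ C, ∑ d ∈ D, ∑ a ∈ A, ∑ b ∈ B, F a b c d := by
  calc ∑ a ∈ A, ∑ b ∈ B, ∑ c ∈ C, ∑ d ∈ D, F a b c d
      = ∑ a ∈ A, ∑ c ∈ C, ∑ b ∈ B, ∑ d ∈ D, F a b c d := sum_congr rfl fun a _ => sum_comm
    _ = ∑ c ∈ C, ∑ a ∈ A, ∑ b ∈ B, ∑ d ∈ D, F a b c d := sum_comm
    _ = ∑ c ∈ C, ∑ a ∈ A, ∑ d ∈ D, ∑ b ∈ B, F a b c d :=
        sum_congr rfl fun c _ => sum_congr rfl fun a _ => sum_comm
    _ = ∑ c ∈ C, ∑ d ∈ D, ∑ a ∈ A, ∑ b ∈ B, F a b c d := sum_congr rfl fun c _ => sum_comm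

theorem bnd2 {α β : Type} (K : Finset α) (L : Finset β) (c : α → ℝ) (c' : β → ℝ)
    (U : α → β → ℝ) (C C' B : ℝ) (hB : 0 ≤ B) (hC : ∑ k ∈ K, |c k| ≤ C)
    (hC' : ∑ l ∈ L, |c' l| ≤ C') (hU : ∀ k ∈ K, ∀ l ∈ L, |U k l| ≤ B) :
    |∑ k ∈ K, ∑ l ∈ L, c k * c' l * U k l| ≤ C * C' * B := by
  have h0 : 0 ≤ ∑ k ∈ K, |c k| := sum_nonneg fun _ _ => abs_nonneg _
  have h0' : 0 ≤ ∑ l ∈ L, |c' l| := sum_nonneg fun _ _ => abs_nonneg _
  calc |∑ k ∈ K, ∑ l ∈ L, c k * c' l * U k l|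
      ≤ ∑ k ∈ K, |∑ l ∈ L, c k * c' l * U k l| := abs_sum_le_sum_abs _ _
    _ ≤ ∑ k ∈ K, ∑ l ∈ L, |c k * c' l * U k l| := sum_le_sum fun k _ => abs_sum_le_sum_abs _ _
    _ ≤ ∑ k ∈ K, ∑ l ∈ L, |c k| * |c' l| * B := by
        refine sum_le_sum fun k hk => sum_le_sum fun l hl => ?_
        rw [abs_mul, abs_mul]
        exact mul_le_mul_of_nonneg_left (hU k hk l hl) (by positivity)
    _ = (∑ k ∈ K, |c k|) * (∑ l ∈ L, |c' l|) * B := by
        rw [sum_mul_sum, sum_mul]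
        exact sum_congr rfl fun k _ => by rw [sum_mul]
    _ ≤ C * C' * B := mul_le_mul_of_nonneg_right (mul_le_mul hC hC' h0' (h0.trans hC)) hB

/-- the second difference -/
def D2 (f : ℕ → ℕ → ℝ) (i j : ℕ) : ℝ := f (i + 1) (j + 1) - f (i + 1) j - f i (j + 1) + f i j

/-- the bound of all the Walsh coefficients -/
def Bd (m I J : ℕ) (X : ℕ → ℕ → ℝ) (κ : ℝ) : Prop :=
  ∀ a < 2 ^ m, ∀ b < 2 ^ m, |∑ i ∈ range I, ∑ j ∈ range J, wal m a i * wal m b j * X i j| ≤ κ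

/-- terms of the first kind -/
theorem typeA (hT : S_THR) {m I J : ℕ} (hI : I < 2 ^ m) (hJ : J < 2 ^ m) {X Y : ℕ → ℕ → ℝ}
    {κ μ : ℝ} (hκ : 0 ≤ κ) (hμ : 0 ≤ μ) (hX : Bd m I J X κ) (hY : Bd m I J Y μ)
    {s t : ℕ → ℕ → ℝ} (hs : Kr m s) (ht : Kr m t) {a b : ℕ} (ha : a < 2 ^ m) (hb : b < 2 ^ m) :
    |∑ i ∈ range I, ∑ j ∈ range J, wal m a i * wal m b j * (X i j *
      ∑ i' ∈ range I, ∑ j' ∈ range J, s i' i * t j' j * Y i' j')| ≤
      ((m : ℝ) + 1) * ((m : ℝ) + 1) * (κ * μ) := by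
  obtain ⟨c, hc, hs⟩ := hs
  obtain ⟨c', hc', ht⟩ := ht
  obtain ⟨-, -, hx, -, -⟩ := hT m
  have key : ∑ i ∈ range I, ∑ j ∈ range J, wal m a i * wal m b j * (X i j *
      ∑ i' ∈ range I, ∑ j' ∈ range J, s i' i * t j' j * Y i' j') =
      ∑ k ∈ Ix m, ∑ l ∈ Ix m, c k * c' l *
        ((∑ i ∈ range I, ∑ j ∈ range J, wal m (a ^^^ k.2) i * wal m (b ^^^ l.2) j * X i j) *
          (∑ i' ∈ range I, ∑ j' ∈ range J, wal m k.1 i' * wal m l.1 j' * Y i' j')) := by
    have e1 : ∀ i ∈ range I, ∀ j ∈ range J, wal m a i * wal m b j * (X i j *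
        ∑ i' ∈ range I, ∑ j' ∈ range J, s i' i * t j' j * Y i' j') =
        ∑ k ∈ Ix m, ∑ l ∈ Ix m, c k * c' l *
          ((wal m (a ^^^ k.2) i * wal m (b ^^^ l.2) j * X i j) *
          (∑ i' ∈ range I, ∑ j' ∈ range J, wal m k.1 i' * wal m l.1 j' * Y i' j')) := by
      intro i hi j hj
      rw [mem_range] at hi hj
      have e2 : ∑ i' ∈ range I, ∑ j' ∈ range J, s i' i * t j' j * Y i' j' =
          ∑ i' ∈ range I, ∑ j' ∈ range J, ∑ k ∈ Ix m, ∑ l ∈ Ix m,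
            c k * c' l * (wal m k.2 i * wal m l.2 j) * (wal m k.1 i' * wal m l.1 j' * Y i' j') := by
        refine sum_congr rfl fun i' hi' => sum_congr rfl fun j' hj' => ?_
        rw [mem_range] at hi' hj'
        rw [hs i' i (hi'.trans hI) (hi.trans hI), ht j' j (hj'.trans hJ) (hj.trans hJ),
          sum_mul_sum, sum_mul]
        refine sum_congr rfl fun k _ => ?_
        rw [sum_mul]
        refine sum_congr rfl fun l _ => ?_
        ring
      rw [e2, swap4, mul_sum, mul_sum]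
      refine sum_congr rfl fun k hk => ?_
      rw [mul_sum, mul_sum]
      refine sum_congr rfl fun l hl => ?_
      rw [(hx a k.2 ha (mem_Ix.1 hk).2).2 i, (hx b l.2 hb (mem_Ix.1 hl).2).2 j]
      have e3 : ∑ i' ∈ range I, ∑ j' ∈ range J, c k * c' l * (wal m k.2 i * wal m l.2 j) *
          (wal m k.1 i' * wal m l.1 j' * Y i' j') =
          c k * c' l * (wal m k.2 i * wal m l.2 j) *
            ∑ i' ∈ range I, ∑ j' ∈ range J, wal m k.1 i' * wal m l.1 j' * Y i' j' := by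
        rw [mul_sum]
        exact sum_congr rfl fun i' _ => by rw [mul_sum]
      rw [e3]
      ring
    rw [sum_congr rfl fun i hi => sum_congr rfl fun j hj => e1 i hi j hj, swap4]
    refine sum_congr rfl fun k _ => sum_congr rfl fun l _ => ?_
    generalize ∑ i' ∈ range I, ∑ j' ∈ range J, wal m k.1 i' * wal m l.1 j' * Y i' j' = Z
    rw [sum_mul, mul_sum]
    refine sum_congr rfl fun i _ => ?_
    rw [sum_mul, mul_sum]
  rw [key]
  refine bnd2 _ _ _ _ _ _ _ _ (mul_nonneg hκ hμ) hc hc' fun k hk l hl => ?_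
  rw [abs_mul]
  exact mul_le_mul (hX _ (hx a k.2 ha (mem_Ix.1 hk).2).1 _ (hx b l.2 hb (mem_Ix.1 hl).2).1)
    (hY _ (mem_Ix.1 hk).1 _ (mem_Ix.1 hl).1) (abs_nonneg _) hκ

/-- terms of the second kind -/
theorem typeB (hT : S_THR) {m I J : ℕ} (hI : I < 2 ^ m) (hJ : J < 2 ^ m) {X Y : ℕ → ℕ → ℝ}
    {κ μ : ℝ} (hκ : 0 ≤ κ) (hμ : 0 ≤ μ) (hX : Bd m I J X κ) (hY : Bd m I J Y μ)
    {s t : ℕ → ℕ → ℝ} (hs : Kr m s) (ht : Kr m t) {a b : ℕ} (ha : a < 2 ^ m) (hb : b < 2 ^ m) :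
    |∑ i ∈ range I, ∑ j ∈ range J, wal m a i * wal m b j *
      ((∑ i' ∈ range I, s i' i * X i' j) * ∑ j' ∈ range J, t j' j * Y i j')| ≤
      ((m : ℝ) + 1) * ((m : ℝ) + 1) * (κ * μ) := by
  obtain ⟨c, hc, hs⟩ := hs
  obtain ⟨c', hc', ht⟩ := ht
  obtain ⟨-, -, hx, -, -⟩ := hT m
  have key : ∑ i ∈ range I, ∑ j ∈ range J, wal m a i * wal m b j *
      ((∑ i' ∈ range I, s i' i * X i' j) * ∑ j' ∈ range J, t j' j * Y i j') =
      ∑ k ∈ Ix m, ∑ l ∈ Ix m, c k * c' l *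
        ((∑ i' ∈ range I, ∑ j ∈ range J, wal m k.1 i' * wal m (b ^^^ l.2) j * X i' j) *
          (∑ i ∈ range I, ∑ j' ∈ range J, wal m (a ^^^ k.2) i * wal m l.1 j' * Y i j')) := by
    have e1 : ∀ i ∈ range I, ∀ j ∈ range J, wal m a i * wal m b j *
        ((∑ i' ∈ range I, s i' i * X i' j) * ∑ j' ∈ range J, t j' j * Y i j') =
        ∑ k ∈ Ix m, ∑ l ∈ Ix m, c k * c' l *
          ((∑ i' ∈ range I, wal m k.1 i' * wal m (b ^^^ l.2) j * X i' j) *
          (∑ j' ∈ range J, wal m (a ^^^ k.2) i * wal m l.1 j' * Y i j')) := by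
      intro i hi j hj
      rw [mem_range] at hi hj
      have e2 : ∑ i' ∈ range I, s i' i * X i' j =
          ∑ k ∈ Ix m, c k * wal m k.2 i * ∑ i' ∈ range I, wal m k.1 i' * X i' j := by
        have e3 : ∀ k ∈ Ix m, c k * wal m k.2 i * ∑ i' ∈ range I, wal m k.1 i' * X i' j =
            ∑ i' ∈ range I, c k * wal m k.2 i * (wal m k.1 i' * X i' j) := fun k _ => mul_sum _ _ _
        rw [sum_congr rfl e3, sum_comm]
        refine sum_congr rfl fun i' hi' => ?_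
        rw [mem_range] at hi'
        rw [hs i' i (hi'.trans hI) (hi.trans hI), sum_mul]
        exact sum_congr rfl fun k _ => by ring
      have e4 : ∑ j' ∈ range J, t j' j * Y i j' =
          ∑ l ∈ Ix m, c' l * wal m l.2 j * ∑ j' ∈ range J, wal m l.1 j' * Y i j' := by
        have e3 : ∀ l ∈ Ix m, c' l * wal m l.2 j * ∑ j' ∈ range J, wal m l.1 j' * Y i j' =
            ∑ j' ∈ range J, c' l * wal m l.2 j * (wal m l.1 j' * Y i j') := fun l _ => mul_sum _ _ _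
        rw [sum_congr rfl e3, sum_comm]
        refine sum_congr rfl fun j' hj' => ?_
        rw [mem_range] at hj'
        rw [ht j' j (hj'.trans hJ) (hj.trans hJ), sum_mul]
        exact sum_congr rfl fun k _ => by ring
      rw [e2, e4, sum_mul_sum, mul_sum]
      refine sum_congr rfl fun k hk => ?_
      rw [mul_sum]
      refine sum_congr rfl fun l hl => ?_
      have e5 : ∑ i' ∈ range I, wal m k.1 i' * wal m (b ^^^ l.2) j * X i' j =
          wal m b j * wal m l.2 j * ∑ i' ∈ range I, wal m k.1 i' * X i' j := by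
        rw [mul_sum, (hx b l.2 hb (mem_Ix.1 hl).2).2 j]
        exact sum_congr rfl fun i' _ => by ring
      have e6 : ∑ j' ∈ range J, wal m (a ^^^ k.2) i * wal m l.1 j' * Y i j' =
          wal m a i * wal m k.2 i * ∑ j' ∈ range J, wal m l.1 j' * Y i j' := by
        rw [mul_sum, (hx a k.2 ha (mem_Ix.1 hk).2).2 i]
        exact sum_congr rfl fun i' _ => by ring
      rw [e5, e6]
      ring
    rw [sum_congr rfl fun i hi => sum_congr rfl fun j hj => e1 i hi j hj, swap4]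
    refine sum_congr rfl fun k _ => sum_congr rfl fun l _ => ?_
    have e7 : ∀ i ∈ range I, ∀ j ∈ range J, c k * c' l *
        ((∑ i' ∈ range I, wal m k.1 i' * wal m (b ^^^ l.2) j * X i' j) *
          (∑ j' ∈ range J, wal m (a ^^^ k.2) i * wal m l.1 j' * Y i j')) =
        (∑ j' ∈ range J, wal m (a ^^^ k.2) i * wal m l.1 j' * Y i j') *
          (c k * c' l * ∑ i' ∈ range I, wal m k.1 i' * wal m (b ^^^ l.2) j * X i' j) :=
      fun i _ j _ => by ring
    rw [sum_congr rfl fun i hi => sum_congr rfl fun j hj => e7 i hi j hj, ← sum_mul_sum,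
      ← mul_sum, sum_comm (s := range J) (t := range I)]
    ring
  rw [key]
  refine bnd2 _ _ _ _ _ _ _ _ (mul_nonneg hκ hμ) hc hc' fun k hk l hl => ?_
  rw [abs_mul]
  exact mul_le_mul (hX _ (mem_Ix.1 hk).1 _ (hx b l.2 hb (mem_Ix.1 hl).2).1)
    (hY _ (hx a k.2 ha (mem_Ix.1 hk).2).1 _ (mem_Ix.1 hl).1) (abs_nonneg _) hκ

theorem trunc {I n : ℕ} (h : n ≤ I) (F : ℕ → ℝ) :
    ∑ i ∈ range I, (if i < n then 1 else 0) * F i = ∑ i ∈ range n, F i := by
  rw [← sum_subset (range_subset_range.2 h)]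
  · refine sum_congr rfl fun i hi => ?_
    rw [mem_range] at hi
    rw [if_pos hi, one_mul]
  · intro i _ hi
    rw [mem_range] at hi
    rw [if_neg hi, zero_mul]

/-- a difference in the first direction -/
theorem row {f : ℕ → ℕ → ℝ} (h0 : ∀ j, f 0 j = 0) {I n : ℕ} (h : n ≤ I) (j : ℕ) :
    ∑ i ∈ range I, (if i < n then 1 else 0) * D2 f i j = f n (j + 1) - f n j := by
  rw [trunc h]
  have e : ∀ i ∈ range n, D2 f i j = (f (i + 1) (j + 1) - f (i + 1) j) -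
      (f i (j + 1) - f i j) := fun i _ => by unfold D2; ring
  rw [sum_congr rfl e, sum_range_sub (fun i => f i (j + 1) - f i j), h0, h0]
  ring

/-- a difference in the second direction -/
theorem col {f : ℕ → ℕ → ℝ} (h0 : ∀ i, f i 0 = 0) {J n : ℕ} (h : n ≤ J) (i : ℕ) :
    ∑ j ∈ range J, (if j < n then 1 else 0) * D2 f i j = f (i + 1) n - f i n := by
  rw [trunc h]
  have e : ∀ j ∈ range n, D2 f i j = (f (i + 1) (j + 1) - f i (j + 1)) -
      (f (i + 1) j - f i j) := fun j _ => by unfold D2; ring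
  rw [sum_congr rfl e, sum_range_sub (fun j => f (i + 1) j - f i j), h0, h0]
  ring

/-- the value -/
theorem val {f : ℕ → ℕ → ℝ} (h0 : ∀ i, f i 0 = 0) (h0' : ∀ j, f 0 j = 0) {I J n k : ℕ}
    (hn : n ≤ I) (hk : k ≤ J) :
    ∑ i ∈ range I, ∑ j ∈ range J, (if i < n then 1 else 0) * (if j < k then 1 else 0) * D2 f i j =
      f n k := by
  have e : ∀ i ∈ range I, ∑ j ∈ range J, (if i < n then (1 : ℝ) else 0) *
      (if j < k then 1 else 0) * D2 f i j = (if i < n then 1 else 0) * (f (i + 1) k - f i k) := by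
    intro i _
    rw [← col h0 hk i, mul_sum]
    exact sum_congr rfl fun j _ => by ring
  rw [sum_congr rfl e, trunc hn, sum_range_sub (fun i => f i k), h0']
  ring

end N3h

open N3h

/-- WZ-N3: products -/
theorem t_F2M (hT : S_THR) : S_F2M := by
  intro m I J f g κ μ hκ hμ hI hJ hf0 hf0' hg0 hg0' hf hg a ha b hb
  have hF : Bd m I J (D2 f) κ := hf
  have hG : Bd m I J (D2 g) μ := hg
  have kl := kr_lt hT m
  have ke := kr_le hT m
  have t1 := typeA hT hI hJ hκ hμ hF hG ke ke ha hb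
  have t2 := typeB hT hI hJ hκ hμ hF hG kl ke ha hb
  have t3 := typeA hT hI hJ hμ hκ hG hF ke kl ha hb
  have t4 := typeB hT hI hJ hμ hκ hG hF kl kl ha hb
  have le_lt : ∀ i' i : ℕ, (if i' ≤ i then (1 : ℝ) else 0) = if i' < i + 1 then 1 else 0 := by
    intro i' i
    by_cases h : i' ≤ i
    · rw [if_pos h, if_pos (by omega)]
    · rw [if_neg h, if_neg (by omega)]
  have key : ∑ i ∈ range I, ∑ j ∈ range J, wal m a i * wal m b j *
      (f (i + 1) (j + 1) * g (i + 1) (j + 1) - f (i + 1) j * g (i + 1) j -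
        f i (j + 1) * g i (j + 1) + f i j * g i j) =
      (∑ i ∈ range I, ∑ j ∈ range J, wal m a i * wal m b j * (D2 f i j *
        ∑ i' ∈ range I, ∑ j' ∈ range J, (if i' ≤ i then 1 else 0) * (if j' ≤ j then 1 else 0) *
          D2 g i' j')) +
      (∑ i ∈ range I, ∑ j ∈ range J, wal m a i * wal m b j *
        ((∑ i' ∈ range I, (if i' < i then 1 else 0) * D2 f i' j) *
          ∑ j' ∈ range J, (if j' ≤ j then 1 else 0) * D2 g i j')) +
      (∑ i ∈ range I, ∑ j ∈ range J, wal m a i * wal m b j * (D2 g i j *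
        ∑ i' ∈ range I, ∑ j' ∈ range J, (if i' ≤ i then 1 else 0) * (if j' < j then 1 else 0) *
          D2 f i' j')) +
      (∑ i ∈ range I, ∑ j ∈ range J, wal m a i * wal m b j *
        ((∑ i' ∈ range I, (if i' < i then 1 else 0) * D2 g i' j) *
          ∑ j' ∈ range J, (if j' < j then 1 else 0) * D2 f i j')) := by
    rw [← sum_add_distrib, ← sum_add_distrib, ← sum_add_distrib]
    refine sum_congr rfl fun i hi => ?_
    rw [← sum_add_distrib, ← sum_add_distrib, ← sum_add_distrib]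
    refine sum_congr rfl fun j hj => ?_
    rw [mem_range] at hi hj
    have v1 : ∑ i' ∈ range I, ∑ j' ∈ range J, (if i' ≤ i then (1 : ℝ) else 0) *
        (if j' ≤ j then 1 else 0) * D2 g i' j' = g (i + 1) (j + 1) := by
      rw [← val hg0 hg0' (show i + 1 ≤ I by omega) (show j + 1 ≤ J by omega)]
      exact sum_congr rfl fun i' _ => sum_congr rfl fun j' _ => by rw [le_lt, le_lt]
    have v2 : ∑ j' ∈ range J, (if j' ≤ j then (1 : ℝ) else 0) * D2 g i j' =
        g (i + 1) (j + 1) - g i (j + 1) := by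
      rw [← col hg0 (show j + 1 ≤ J by omega) i]
      exact sum_congr rfl fun j' _ => by rw [le_lt]
    have v3 : ∑ i' ∈ range I, ∑ j' ∈ range J, (if i' ≤ i then (1 : ℝ) else 0) *
        (if j' < j then 1 else 0) * D2 f i' j' = f (i + 1) j := by
      rw [← val hf0 hf0' (show i + 1 ≤ I by omega) (show j ≤ J by omega)]
      exact sum_congr rfl fun i' _ => sum_congr rfl fun j' _ => by rw [le_lt]
    rw [v1, v2, v3, row hf0' (show i ≤ I by omega) j, row hg0' (show i ≤ I by omega) j,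
      col hf0 (show j ≤ J by omega) i]
    unfold D2
    ring
  show |∑ i ∈ range I, ∑ j ∈ range J, wal m a i * wal m b j *
      (f (i + 1) (j + 1) * g (i + 1) (j + 1) - f (i + 1) j * g (i + 1) j -
        f i (j + 1) * g i (j + 1) + f i j * g i j)| ≤ _
  rw [key]
  refine (abs_add_le _ _).trans ?_
  refine (add_le_add (abs_add_le _ _) le_rfl).trans ?_
  refine (add_le_add (add_le_add (abs_add_le _ _) le_rfl) le_rfl).trans ?_
  linarith [t1, t2, t3, t4]

end Pool.Agent.NH34.WZ
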