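import Pool.Agent.NH34.WZ.StmN

/-!
# Project WZ: inverses in the algebra `F2`
-/

set_option autoImplicit false

namespace Pool.Agent.NH34.WZ

open Finset
open Pool.Agent.NH99.WZ

namespace N4h

/-- the fixed point argument -/
theorem fix (hF : S_FB) (hM : S_F2M) {m I J : ℕ} {u f : ℕ → ℕ → ℝ} {lam : ℝ}
    (hI : I < 2 ^ m) (hJ : J < 2 ^ m) (hl : 0 ≤ lam) (hs : 8 * ((m : ℝ) + 1) ^ 2 * lam ≤ 1)
    (hu0 : ∀ i, u i 0 = 0) (hu0' : ∀ j, u 0 j = 0) (hf0 : ∀ i, f i 0 = 0) (hf0' : ∀ j, f 0 j = 0)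
    (hu : F2 m I J u lam) (he : ∀ i ≤ I, ∀ j ≤ J, f i j = -u i j - u i j * f i j) :
    F2 m I J f (2 * lam) := by
  obtain ⟨-, -, -, -, -, -, -, hcg, hsc, had, -⟩ := hF
  obtain ⟨k, hk, hmax⟩ := Finset.exists_max_image (range (2 ^ m) ×ˢ range (2 ^ m))
    (fun p => |∑ i ∈ range I, ∑ j ∈ range J, wal m p.1 i * wal m p.2 j *
      (f (i + 1) (j + 1) - f (i + 1) j - f i (j + 1) + f i j)|)
    ⟨(0, 0), by rw [mem_product, mem_range]; exact ⟨by positivity, by positivity⟩⟩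
  obtain ⟨K, hK⟩ : ∃ K : ℝ, K = |∑ i ∈ range I, ∑ j ∈ range J, wal m k.1 i * wal m k.2 j *
      (f (i + 1) (j + 1) - f (i + 1) j - f i (j + 1) + f i j)| := ⟨_, rfl⟩
  have hK0 : 0 ≤ K := by rw [hK]; exact abs_nonneg _
  have hfK : F2 m I J f K := by
    intro a ha b hb
    rw [hK]
    exact hmax (a, b) (mem_product.2 ⟨mem_range.2 ha, mem_range.2 hb⟩)
  have h1 := hM m I J u f lam K hl hK0 hI hJ hu0 hu0' hf0 hf0' hu hfK
  have h2 := hsc m I J _ _ (-1) h1
  have h3 := hsc m I J _ _ (-1) hu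
  have h4 := had m I J _ _ _ _ h3 h2
  have h5 : F2 m I J f (|(-1 : ℝ)| * lam + |(-1 : ℝ)| * (4 * ((m : ℝ) + 1) ^ 2 * (lam * K))) := by
    refine hcg m I J _ _ _ _ h4 le_rfl fun i hi j hj => ?_
    have e := he i hi j hj
    linear_combination -e
  rw [mem_product, mem_range, mem_range] at hk
  have h6 := h5 k.1 hk.1 k.2 hk.2
  rw [← hK] at h6
  have h7 : |(-1 : ℝ)| = 1 := by norm_num
  rw [h7, one_mul, one_mul] at h6
  have h8 : 4 * ((m : ℝ) + 1) ^ 2 * (lam * K) ≤ K / 2 := by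
    have := mul_le_mul_of_nonneg_right hs hK0
    nlinarith
  have h9 : K ≤ 2 * lam := by linarith
  exact hcg m I J f f K (2 * lam) hfK h9 fun _ _ _ _ => rfl

end N4h

open N4h

/-- WZ-N4: inverses -/
theorem t_F2I (hF : S_FB) (hE : S_F2E) (hM : S_F2M) : S_F2I := by
  intro m I J z κ hκ hI hJ hz0 hz0' hs hz
  have hF' := hF
  obtain ⟨-, -, -, -, -, -, -, hcg, hsc, had, -⟩ := hF'
  have hm1 : (1 : ℝ) ≤ ((m : ℝ) + 1) ^ 2 := by
    have : (1 : ℝ) ≤ (m : ℝ) + 1 := by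
      have := Nat.cast_nonneg (α := ℝ) m
      linarith
    nlinarith
  have hb := (hE m I J z κ hκ hI hJ hz0 hz0' hz).1
  have hzs : ∀ i ≤ I, ∀ j ≤ J, |z i j| ≤ 1 / 32 := by
    intro i hi j hj
    have := hb i hi j hj
    linarith
  have hκ1 : κ ≤ 1 / 32 := by nlinarith
  have hmk : ((m : ℝ) + 1) ^ 2 * κ ≤ 1 / 32 := by linarith
  -- the first function
  have p1 : F2 m I J (fun i j => 1 / (1 + z i j) - 1) (2 * κ) := by
    refine fix hF hM hI hJ hκ (by nlinarith) hz0 hz0' (fun i => ?_) (fun j => ?_) hz ?_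
    · simp [hz0]
    · simp [hz0']
    · intro i hi j hj
      have h1 := abs_le.1 (hzs i hi j hj)
      have h2 : (1 : ℝ) + z i j ≠ 0 := by
        have := h1.1
        intro h
        linarith
      field_simp
      ring
  have f0 : ∀ i, (fun i j => 1 / (1 + z i j) - 1) i 0 = 0 := fun i => by simp [hz0]
  have f0' : ∀ j, (fun i j => 1 / (1 + z i j) - 1) 0 j = 0 := fun j => by simp [hz0']
  refine ⟨p1, ?_, ?_⟩
  · have h1 := hM m I J _ _ (2 * κ) (2 * κ) (by linarith) (by linarith) hI hJ f0 f0' f0 f0' p1 p1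
    have h2 := hsc m I J _ _ 2 p1
    have h3 := had m I J _ _ _ _ h2 h1
    refine hcg m I J _ _ _ _ h3 ?_ fun i hi j hj => ?_
    · have h7 : |(2 : ℝ)| = 2 := by norm_num
      rw [h7]
      have h4 : 4 * ((m : ℝ) + 1) ^ 2 * (2 * κ * (2 * κ)) = 16 * (((m : ℝ) + 1) ^ 2 * κ) * κ := by
        ring
      rw [h4]
      have h5 : 16 * (((m : ℝ) + 1) ^ 2 * κ) * κ ≤ 16 * (1 / 32) * κ := by
        apply mul_le_mul_of_nonneg_right _ hκ
        linarith
      linarith
    · have h1 := abs_le.1 (hzs i hi j hj)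
      have h2 : (1 : ℝ) + z i j ≠ 0 := by
        have := h1.1
        intro h
        linarith
      field_simp
      ring
  · have h1 := hM m I J _ _ κ κ hκ hκ hI hJ hz0 hz0' hz0 hz0' hz hz
    have h2 := hsc m I J _ _ (-1) h1
    have h7 : |(-1 : ℝ)| = 1 := by norm_num
    rw [h7, one_mul] at h2
    have h3 : F2 m I J (fun i j => -(z i j * z i j)) (κ / 8) := by
      refine hcg m I J _ _ _ _ h2 ?_ fun i _ j _ => by ring
      have h4 : 4 * ((m : ℝ) + 1) ^ 2 * (κ * κ) = 4 * (((m : ℝ) + 1) ^ 2 * κ) * κ := by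
        ring
      rw [h4]
      have h5 : 4 * (((m : ℝ) + 1) ^ 2 * κ) * κ ≤ 4 * (1 / 32) * κ := by
        apply mul_le_mul_of_nonneg_right _ hκ
        linarith
      linarith
    have h4 : F2 m I J (fun i j => 1 / (1 - z i j ^ 2) - 1) (2 * (κ / 8)) := by
      refine fix hF hM hI hJ (by linarith) (by nlinarith) (fun i => ?_) (fun j => ?_) (fun i => ?_)
        (fun j => ?_) h3 ?_
      · simp [hz0]
      · simp [hz0']
      · simp [hz0]
      · simp [hz0']
      · intro i hi j hj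
        have h1 := abs_le.1 (hzs i hi j hj)
        have h2 : (1 : ℝ) - z i j ^ 2 ≠ 0 := by
          have := h1.1
          have := h1.2
          intro h
          nlinarith
        field_simp
        ring
    exact hcg m I J _ _ _ _ h4 (by linarith) fun _ _ _ _ => rfl

end Pool.Agent.NH34.WZ
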