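import Pool.Agent.NH34.WZ.StmN

set_option autoImplicit false

/-!
# Project WZ: product of a family of matrices with a function (WZ-N5)
-/

namespace Pool.Agent.NH34.WZ

open Finset
open Pool.Agent.NH99.WZ

namespace N5

/-- the diagonal rule with a bound `ω` for the column factors -/
theorem diag (I J : ℕ) (M : ℕ → ℕ → ℝ) (κ ω : ℝ) (p q : ℕ → ℝ) (hκ : 0 ≤ κ) (hω : 0 ≤ ω)
    (hp : ∀ i < I, |p i| ≤ 1) (hq : ∀ j < J, |q j| ≤ ω) (h : Op I J M κ) :
    Op I J (fun i j => p i * q j * M i j) (κ * ω) := by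
  intro x z
  have h1 := h (fun i => x i * p i) (fun j => z j * q j)
  have e : ∑ i ∈ range I, ∑ j ∈ range J, x i * p i * (z j * q j) * M i j =
      ∑ i ∈ range I, ∑ j ∈ range J, x i * z j * (p i * q j * M i j) := by
    apply Finset.sum_congr rfl; intro i _
    apply Finset.sum_congr rfl; intro j _
    ring
  rw [e] at h1
  refine h1.trans ?_
  have a1 : Real.sqrt (∑ i ∈ range I, (x i * p i) ^ 2) ≤ Real.sqrt (∑ i ∈ range I, x i ^ 2) := by
    apply Real.sqrt_le_sqrt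
    apply Finset.sum_le_sum
    intro i hi
    rw [mul_pow]
    have := hp i (Finset.mem_range.1 hi)
    have h2 : p i ^ 2 ≤ 1 := by
      rw [← sq_abs]
      exact pow_le_one₀ (abs_nonneg _) this
    nlinarith [sq_nonneg (x i)]
  have a2 : Real.sqrt (∑ j ∈ range J, (z j * q j) ^ 2) ≤
      ω * Real.sqrt (∑ j ∈ range J, z j ^ 2) := by
    rw [← Real.sqrt_sq hω, ← Real.sqrt_mul (sq_nonneg ω)]
    apply Real.sqrt_le_sqrt
    rw [Finset.mul_sum]
    apply Finset.sum_le_sum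
    intro j hj
    rw [mul_pow, mul_comm]
    have := hq j (Finset.mem_range.1 hj)
    have h2 : q j ^ 2 ≤ ω ^ 2 := by
      rw [← sq_abs]
      exact pow_le_pow_left₀ (abs_nonneg _) this 2
    exact mul_le_mul_of_nonneg_right h2 (sq_nonneg _)
  calc κ * (Real.sqrt (∑ i ∈ range I, (x i * p i) ^ 2) *
        Real.sqrt (∑ j ∈ range J, (z j * q j) ^ 2))
      ≤ κ * (Real.sqrt (∑ i ∈ range I, x i ^ 2) * (ω * Real.sqrt (∑ j ∈ range J, z j ^ 2))) := by
        apply mul_le_mul_of_nonneg_left _ hκ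
        exact mul_le_mul a1 a2 (Real.sqrt_nonneg _) (Real.sqrt_nonneg _)
    _ = κ * ω * (Real.sqrt (∑ i ∈ range I, x i ^ 2) * Real.sqrt (∑ j ∈ range J, z j ^ 2)) := by
        ring

/-- the set of pairs -/
def R2 (m : ℕ) : Finset (ℕ × ℕ) := range (2 ^ m) ×ˢ range (2 ^ m)

theorem part (hO : S_OPT) (m I J : ℕ) (c c' : ℕ → ℕ → ℝ) (A B κ : ℝ) (hκ : 0 ≤ κ) (hA : 0 ≤ A)
    (hc : ∑ a ∈ range (2 ^ m), ∑ b ∈ range (2 ^ m), |c a b| ≤ A)
    (hc' : ∑ a ∈ range (2 ^ m), ∑ b ∈ range (2 ^ m), |c' a b| ≤ B)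
    (N : ℕ × ℕ → ℕ × ℕ → ℕ → ℕ → ℝ)
    (hN : ∀ P ∈ R2 m, ∀ P' ∈ R2 m, Op I J (N P P') κ) :
    Op I J (fun i j => ∑ P ∈ R2 m, ∑ P' ∈ R2 m, c P.1 P.2 * c' P'.1 P'.2 * N P P' i j)
      (A * B * κ) := by
  obtain ⟨h1, h2, h3, _⟩ := hO
  have h := h3 ((ℕ × ℕ) × (ℕ × ℕ)) (R2 m ×ˢ R2 m)
    (fun x => c x.1.1 x.1.2 * c' x.2.1 x.2.2) (fun _ => κ) (fun x => N x.1 x.2) I J (by
      intro x hx
      rw [Finset.mem_product] at hx
      exact hN x.1 hx.1 x.2 hx.2)
  simp only [Finset.sum_product] at h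
  refine h1 I J _ _ _ h ?_
  have e : ∑ x ∈ R2 m, ∑ y ∈ R2 m, |c x.1 x.2 * c' y.1 y.2| * κ =
      (∑ x ∈ R2 m, |c x.1 x.2|) * (∑ y ∈ R2 m, |c' y.1 y.2|) * κ := by
    rw [Finset.sum_mul_sum, Finset.sum_mul]
    apply Finset.sum_congr rfl; intro x _
    rw [Finset.sum_mul]
    apply Finset.sum_congr rfl; intro y _
    rw [abs_mul]
  have e1 : ∑ x ∈ R2 m, |c x.1 x.2| ≤ A := by
    unfold R2
    rw [Finset.sum_product]
    exact hc
  have e2 : ∑ x ∈ R2 m, |c' x.1 x.2| ≤ B := by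
    unfold R2
    rw [Finset.sum_product]
    exact hc'
  rw [e]
  apply mul_le_mul_of_nonneg_right _ hκ
  exact mul_le_mul e1 e2 (Finset.sum_nonneg fun _ _ => abs_nonneg _) hA

/-- telescoping in one variable -/
theorem tele (T : ℕ) (g : ℕ → ℝ) (g0 : g 0 = 0) (τ : ℕ) (hτ : τ ≤ T) :
    g τ = ∑ τ' ∈ range T, (if τ' < τ then (1:ℝ) else 0) * (g (τ' + 1) - g τ') := by
  have h1 : g τ = ∑ τ' ∈ range τ, (g (τ' + 1) - g τ') := by
    rw [Finset.sum_range_sub, g0, sub_zero]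
  have h2 : range τ ⊆ range T := Finset.range_mono hτ
  rw [h1, ← Finset.sum_subset h2 (f := fun τ' => (if τ' < τ then (1:ℝ) else 0) * (g (τ' + 1) - g τ'))]
  · apply Finset.sum_congr rfl
    intro τ' hh
    rw [if_pos (Finset.mem_range.1 hh), one_mul]
  · intro τ' _ hn
    rw [if_neg (fun hh => hn (Finset.mem_range.2 hh)), zero_mul]

end N5

open N5 in
theorem t_FBM (hT : S_THR) (hO : S_OPT) : S_FBM := by
  intro m I J T G h κ ω hκ hω hI hTm hG0 hh hFB a ha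
  obtain ⟨⟨c, hc, hcE⟩, ⟨c', hc', hcE'⟩, hxor, -, hw1⟩ := hT m
  have hwabs : ∀ a i, |wal m a i| ≤ 1 := by
    intro a i
    rcases hw1 a i with e | e <;> rw [e] <;> simp
  -- expansions of thresholds over pairs
  have hE : ∀ i j, i < 2 ^ m → j < 2 ^ m → (if i < j then (1 : ℝ) else 0) =
      ∑ P ∈ R2 m, c P.1 P.2 * (wal m P.1 i * wal m P.2 j) := by
    intro i j hi hj
    unfold R2
    rw [Finset.sum_product]
    exact hcE i j hi hj
  have hE' : ∀ i j, i < 2 ^ m → j < 2 ^ m → (if i < j + 1 then (1 : ℝ) else 0) =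
      ∑ P ∈ R2 m, c' P.1 P.2 * (wal m P.1 i * wal m P.2 j) := by
    intro i j hi hj
    unfold R2
    rw [Finset.sum_product]
    simp only [Nat.lt_succ_iff]
    exact hcE' i j hi hj
  set D2 : ℕ → ℕ → ℕ → ℝ := fun j i τ =>
    h j (i + 1) (τ + 1) - h j (i + 1) τ - h j i (τ + 1) + h j i τ with hD2
  set Gh : ℕ → ℕ → ℕ → ℝ := fun p i j =>
    ∑ τ ∈ range T, wal m p τ * (G i j (τ + 1) - G i j τ) with hGh
  set Hh : ℕ → ℕ → ℕ → ℝ := fun j p p' =>
    ∑ i' ∈ range I, ∑ τ' ∈ range T, wal m p i' * wal m p' τ' * D2 j i' τ' with hHh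
  have hHb : ∀ j < J, ∀ p < 2 ^ m, ∀ p' < 2 ^ m, |Hh j p p'| ≤ ω := by
    intro j hj p hp p' hp'
    exact (hh j hj).2.2 p hp p' hp'
  have hmem : ∀ P ∈ R2 m, P.1 < 2 ^ m ∧ P.2 < 2 ^ m := by
    intro P hP
    unfold R2 at hP
    rw [Finset.mem_product, Finset.mem_range, Finset.mem_range] at hP
    exact hP
  -- differences of `h` in `τ`
  have hdh : ∀ j < J, ∀ i ≤ I, ∀ τ, h j i (τ + 1) - h j i τ =
      ∑ P ∈ R2 m, c P.1 P.2 * (wal m P.2 i * ∑ i' ∈ range I, wal m P.1 i' * D2 j i' τ) := by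
    intro j hj i hi τ
    have h0 := (hh j hj).2.1
    have t1 := tele I (fun i => h j i (τ + 1) - h j i τ) (by simp [h0]) i hi
    rw [t1]
    have : ∀ i' ∈ range I, (if i' < i then (1:ℝ) else 0) *
        (h j (i' + 1) (τ + 1) - h j (i' + 1) τ - (h j i' (τ + 1) - h j i' τ)) =
        ∑ P ∈ R2 m, c P.1 P.2 * (wal m P.2 i * (wal m P.1 i' * D2 j i' τ)) := by
      intro i' hi'
      rw [hE i' i (by have := Finset.mem_range.1 hi'; omega) (by omega), Finset.sum_mul]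
      apply Finset.sum_congr rfl
      intro P _
      simp only [hD2]
      ring
    rw [Finset.sum_congr rfl this, Finset.sum_comm]
    apply Finset.sum_congr rfl
    intro P _
    rw [Finset.mul_sum, Finset.mul_sum]
  -- `h` itself
  have hhh : ∀ j < J, ∀ i ≤ I, ∀ τ < T, h j i (τ + 1) =
      ∑ P ∈ R2 m, ∑ P' ∈ R2 m, c P.1 P.2 * c' P'.1 P'.2 *
        (wal m P.2 i * wal m P'.2 τ * Hh j P.1 P'.1) := by
    intro j hj i hi τ hτ
    have t1 := tele T (fun τ => h j i τ) ((hh j hj).1 i) (τ + 1) (by omega)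
    rw [t1]
    have : ∀ τ' ∈ range T, (if τ' < τ + 1 then (1:ℝ) else 0) * (h j i (τ' + 1) - h j i τ') =
        ∑ P ∈ R2 m, ∑ P' ∈ R2 m, c P.1 P.2 * c' P'.1 P'.2 *
          (wal m P.2 i * wal m P'.2 τ * ∑ i' ∈ range I, wal m P.1 i' * wal m P'.1 τ' * D2 j i' τ') := by
      intro τ' hτ'
      rw [hE' τ' τ (by have := Finset.mem_range.1 hτ'; omega) (by omega), hdh j hj i hi τ',
        mul_comm, Finset.sum_mul_sum]
      apply Finset.sum_congr rfl
      intro P _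
      apply Finset.sum_congr rfl
      intro P' _
      have : ∑ i' ∈ range I, wal m P.1 i' * wal m P'.1 τ' * D2 j i' τ' =
          wal m P'.1 τ' * ∑ i' ∈ range I, wal m P.1 i' * D2 j i' τ' := by
        rw [Finset.mul_sum]
        apply Finset.sum_congr rfl
        intro i' _
        ring
      rw [this]
      ring
    rw [Finset.sum_congr rfl this, Finset.sum_comm]
    apply Finset.sum_congr rfl
    intro P _
    rw [Finset.sum_comm]
    apply Finset.sum_congr rfl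
    intro P' _
    rw [← Finset.mul_sum, ← Finset.mul_sum]
    congr 2
    simp only [hHh]
    rw [Finset.sum_comm]
  -- `G`
  have hGG : ∀ i j, ∀ τ < T, G i j τ = ∑ P ∈ R2 m, c P.1 P.2 * (wal m P.2 τ * Gh P.1 i j) := by
    intro i j τ hτ
    have t1 := tele T (fun τ => G i j τ) (hG0 i j) τ hτ.le
    rw [t1]
    have : ∀ τ' ∈ range T, (if τ' < τ then (1:ℝ) else 0) * (G i j (τ' + 1) - G i j τ') =
        ∑ P ∈ R2 m, c P.1 P.2 * (wal m P.2 τ * (wal m P.1 τ' * (G i j (τ' + 1) - G i j τ'))) := by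
      intro τ' hτ'
      rw [hE τ' τ (by have := Finset.mem_range.1 hτ'; omega) (by omega), Finset.sum_mul]
      apply Finset.sum_congr rfl
      intro P _
      ring
    rw [Finset.sum_congr rfl this, Finset.sum_comm]
    apply Finset.sum_congr rfl
    intro P _
    rw [← Finset.mul_sum, ← Finset.mul_sum]
  have hκω : 0 ≤ κ * ω := by positivity
  have hm0 : (0:ℝ) ≤ m := Nat.cast_nonneg m
  -- first part
  have o1 := part hO m (I + 1) J c c' (m : ℝ) ((m : ℝ) + 1) (κ * ω) hκω hm0 hc hc'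
    (fun P P' i j => wal m P.2 i * Hh j P.1 P'.1 * Gh (a ^^^ P'.2) i j) (by
      intro P hP P' hP'
      exact diag (I + 1) J (Gh (a ^^^ P'.2)) κ ω (fun i => wal m P.2 i)
        (fun j => Hh j P.1 P'.1) hκ hω (fun i _ => hwabs _ _)
        (fun j hj => hHb j hj _ (hmem P hP).1 _ (hmem P' hP').1)
        (hFB _ (hxor a P'.2 ha (hmem P' hP').2).1))
  have o2 := part hO m (I + 1) J c c (m : ℝ) (m : ℝ) (κ * ω) hκω hm0 hc hc
    (fun P P' i j => wal m P'.2 i * Hh j P'.1 (a ^^^ P.2) * Gh P.1 i j) (by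
      intro P hP P' hP'
      exact diag (I + 1) J (Gh P.1) κ ω (fun i => wal m P'.2 i)
        (fun j => Hh j P'.1 (a ^^^ P.2)) hκ hω (fun i _ => hwabs _ _)
        (fun j hj => hHb j hj _ (hmem P' hP').1 _ (hxor a P.2 ha (hmem P hP).2).1)
        (hFB _ (hmem P hP).1))
  obtain ⟨k1, k2, _, k4, _⟩ := hO
  have o := k4 (I + 1) J _ _ _ _ o1 o2
  have o' := k1 (I + 1) J _ _ (2 * ((m : ℝ) + 1) ^ 2 * (κ * ω)) o (by
    nlinarith [mul_nonneg hm0 hκω])
  refine k2 (I + 1) J _ _ _ ?_ o'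
  intro i hi j hj
  have hiI : i ≤ I := by omega
  dsimp only
  have s1 : ∑ P ∈ R2 m, ∑ P' ∈ R2 m, c P.1 P.2 * c' P'.1 P'.2 *
      (wal m P.2 i * Hh j P.1 P'.1 * Gh (a ^^^ P'.2) i j) =
      ∑ τ ∈ range T, wal m a τ * (G i j (τ + 1) - G i j τ) * h j i (τ + 1) := by
    have : ∀ τ ∈ range T, wal m a τ * (G i j (τ + 1) - G i j τ) * h j i (τ + 1) =
        ∑ P ∈ R2 m, ∑ P' ∈ R2 m, c P.1 P.2 * c' P'.1 P'.2 *
          (wal m P.2 i * Hh j P.1 P'.1 *
            (wal m (a ^^^ P'.2) τ * (G i j (τ + 1) - G i j τ))) := by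
      intro τ hτ
      rw [hhh j hj i hiI τ (Finset.mem_range.1 hτ), Finset.mul_sum]
      apply Finset.sum_congr rfl
      intro P _
      rw [Finset.mul_sum]
      apply Finset.sum_congr rfl
      intro P' hP'
      rw [(hxor a P'.2 ha (hmem P' hP').2).2 τ]
      ring
    symm
    rw [Finset.sum_congr rfl this, Finset.sum_comm]
    apply Finset.sum_congr rfl
    intro P _
    rw [Finset.sum_comm]
    apply Finset.sum_congr rfl
    intro P' _
    rw [← Finset.mul_sum, ← Finset.mul_sum]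
  have s2 : ∑ P ∈ R2 m, ∑ P' ∈ R2 m, c P.1 P.2 * c P'.1 P'.2 *
      (wal m P'.2 i * Hh j P'.1 (a ^^^ P.2) * Gh P.1 i j) =
      ∑ τ ∈ range T, wal m a τ * G i j τ * (h j i (τ + 1) - h j i τ) := by
    have : ∀ τ ∈ range T, wal m a τ * G i j τ * (h j i (τ + 1) - h j i τ) =
        ∑ P ∈ R2 m, ∑ P' ∈ R2 m, c P.1 P.2 * c P'.1 P'.2 *
          (wal m P'.2 i * (∑ i' ∈ range I, wal m P'.1 i' * wal m (a ^^^ P.2) τ * D2 j i' τ) *
            Gh P.1 i j) := by
      intro τ hτ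
      rw [hGG i j τ (Finset.mem_range.1 hτ), hdh j hj i hiI τ, mul_assoc,
        Finset.sum_mul_sum, Finset.mul_sum]
      apply Finset.sum_congr rfl
      intro P hP
      rw [Finset.mul_sum]
      apply Finset.sum_congr rfl
      intro P' _
      rw [(hxor a P.2 ha (hmem P hP).2).2 τ]
      have : ∑ i' ∈ range I, wal m P'.1 i' * (wal m a τ * wal m P.2 τ) * D2 j i' τ =
          wal m a τ * wal m P.2 τ * ∑ i' ∈ range I, wal m P'.1 i' * D2 j i' τ := by
        rw [Finset.mul_sum]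
        apply Finset.sum_congr rfl
        intro i' _
        ring
      rw [this]
      ring
    symm
    rw [Finset.sum_congr rfl this, Finset.sum_comm]
    apply Finset.sum_congr rfl
    intro P _
    rw [Finset.sum_comm]
    apply Finset.sum_congr rfl
    intro P' _
    rw [← Finset.mul_sum, ← Finset.sum_mul, ← Finset.mul_sum]
    congr 3
    simp only [hHh]
    rw [Finset.sum_comm]
  rw [s1, s2, ← Finset.sum_add_distrib]
  apply Finset.sum_congr rfl
  intro τ _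
  ring

end Pool.Agent.NH34.WZ
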