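import Pool.Agent.NH34.WZ.StmN

/-!
# Project WZ: the star product
-/

set_option autoImplicit false

namespace Pool.Agent.NH34.WZ

open Finset
open Pool.Agent.NH99.WZ

namespace N6h

/-- the index set of the Walsh expansions -/
def Ix (m : ℕ) : Finset (ℕ × ℕ) := range (2 ^ m) ×ˢ range (2 ^ m)

theorem mem_Ix {m : ℕ} {k : ℕ × ℕ} : k ∈ Ix m ↔ k.1 < 2 ^ m ∧ k.2 < 2 ^ m := by
  unfold Ix
  rw [mem_product, mem_range, mem_range]

/-- the expansion of the threshold -/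
theorem thr (hT : S_THR) (m : ℕ) : ∃ c : ℕ × ℕ → ℝ, ∑ k ∈ Ix m, |c k| ≤ (m : ℝ) + 1 ∧
    ∀ i' i, i' < 2 ^ m → i < 2 ^ m → (if i' < i then (1 : ℝ) else 0) =
      ∑ k ∈ Ix m, c k * (wal m k.1 i' * wal m k.2 i) := by
  obtain ⟨⟨c, h1, h2⟩, -⟩ := hT m
  refine ⟨fun k => c k.1 k.2, ?_, ?_⟩
  · unfold Ix
    rw [sum_product]
    exact h1.trans (by linarith)
  · intro i' i hi' hi
    unfold Ix
    rw [sum_product]
    exact h2 i' i hi' hi

/-- expansion of a function with value zero at zero -/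
theorem exp1 {m : ℕ} {c : ℕ × ℕ → ℝ} (hc : ∀ i' i, i' < 2 ^ m → i < 2 ^ m →
    (if i' < i then (1 : ℝ) else 0) = ∑ k ∈ Ix m, c k * (wal m k.1 i' * wal m k.2 i))
    (F : ℕ → ℝ) (h0 : F 0 = 0) {n N : ℕ} (hn : n ≤ N) (hN : N < 2 ^ m) :
    F n = ∑ k ∈ Ix m, c k * (wal m k.2 n * ∑ i ∈ range N, wal m k.1 i * (F (i + 1) - F i)) := by
  have e1 : ∀ k ∈ Ix m, c k * (wal m k.2 n * ∑ i ∈ range N, wal m k.1 i * (F (i + 1) - F i)) =
      ∑ i ∈ range N, c k * (wal m k.1 i * wal m k.2 n) * (F (i + 1) - F i) := by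
    intro k _
    rw [mul_sum, mul_sum]
    exact sum_congr rfl fun i _ => by ring
  rw [sum_congr rfl e1, sum_comm]
  have e2 : ∀ i ∈ range N, ∑ k ∈ Ix m, c k * (wal m k.1 i * wal m k.2 n) * (F (i + 1) - F i) =
      if i < n then (F (i + 1) - F i) else 0 := by
    intro i hi
    rw [mem_range] at hi
    rw [← sum_mul, ← hc i n (hi.trans hN) (lt_of_le_of_lt hn hN)]
    split_ifs
    · rw [one_mul]
    · rw [zero_mul]
  rw [sum_congr rfl e2, ← sum_subset (range_subset_range.2 hn) (f := fun i =>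
    if i < n then (F (i + 1) - F i) else 0)]
  · rw [sum_congr rfl fun i hi => if_pos (mem_range.1 hi), sum_range_sub, h0, sub_zero]
  · intro i _ hi
    rw [mem_range] at hi
    exact if_neg hi

/-- scaling of the columns -/
theorem opd {I J : ℕ} {M : ℕ → ℕ → ℝ} {κ D : ℝ} {d : ℕ → ℝ} (hκ : 0 ≤ κ) (hD : 0 ≤ D)
    (hd : ∀ j < J, |d j| ≤ D) (h : Op I J M κ) : Op I J (fun i j => d j * M i j) (D * κ) := by
  intro x z
  have h1 := h x (fun j => z j * d j)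
  have e : ∑ i ∈ range I, ∑ j ∈ range J, x i * z j * (d j * M i j) =
      ∑ i ∈ range I, ∑ j ∈ range J, x i * (z j * d j) * M i j :=
    sum_congr rfl fun i _ => sum_congr rfl fun j _ => by ring
  rw [e]
  refine h1.trans ?_
  have h2 : Real.sqrt (∑ j ∈ range J, (z j * d j) ^ 2) ≤ D * Real.sqrt (∑ j ∈ range J, z j ^ 2) := by
    have h3 : ∑ j ∈ range J, (z j * d j) ^ 2 ≤ D ^ 2 * ∑ j ∈ range J, z j ^ 2 := by
      rw [mul_sum]
      refine sum_le_sum fun j hj => ?_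
      have h4 : d j ^ 2 ≤ D ^ 2 := by
        rw [← sq_abs (d j)]
        exact pow_le_pow_left₀ (abs_nonneg _) (hd j (mem_range.1 hj)) 2
      rw [mul_pow]
      nlinarith [sq_nonneg (z j)]
    refine (Real.sqrt_le_sqrt h3).trans (le_of_eq ?_)
    rw [Real.sqrt_mul (sq_nonneg D), Real.sqrt_sq hD]
  have h5 : 0 ≤ Real.sqrt (∑ i ∈ range I, x i ^ 2) := Real.sqrt_nonneg _
  calc κ * (Real.sqrt (∑ i ∈ range I, x i ^ 2) * Real.sqrt (∑ j ∈ range J, (z j * d j) ^ 2))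
      ≤ κ * (Real.sqrt (∑ i ∈ range I, x i ^ 2) * (D * Real.sqrt (∑ j ∈ range J, z j ^ 2))) :=
        mul_le_mul_of_nonneg_left (mul_le_mul_of_nonneg_left h2 h5) hκ
    _ = D * κ * (Real.sqrt (∑ i ∈ range I, x i ^ 2) * Real.sqrt (∑ j ∈ range J, z j ^ 2)) := by
        ring

/-- linear combinations -/
theorem lin2 (hT : S_THR) (hO : S_OPT) {m I J : ℕ} {c : ℕ × ℕ → ℝ}
    (hc : ∑ k ∈ Ix m, |c k| ≤ (m : ℝ) + 1) (M : ℕ × ℕ → ℕ × ℕ → ℕ → ℕ → ℝ) {κ : ℝ} (hκ : 0 ≤ κ)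
    (hM : ∀ k ∈ Ix m, ∀ l ∈ Ix m, Op I J (M k l) κ) :
    Op I J (fun a b => ∑ k ∈ Ix m, ∑ l ∈ Ix m, c k * c l *
      (wal m k.2 a * wal m l.2 b * M k l a b)) (((m : ℝ) + 1) ^ 2 * κ) := by
  obtain ⟨hmono, hcg, hlin, -, hpq, -⟩ := hO
  obtain ⟨-, -, -, -, hw⟩ := hT m
  have hw1 : ∀ a i, |wal m a i| ≤ 1 := by
    intro a i
    rcases hw a i with h | h <;> rw [h] <;> norm_num
  have h1 := hlin ((ℕ × ℕ) × (ℕ × ℕ)) (Ix m ×ˢ Ix m) (fun z => c z.1 * c z.2) (fun _ => κ)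
    (fun z a b => wal m z.1.2 a * wal m z.2.2 b * M z.1 z.2 a b) I J (fun z hz => by
      rw [mem_product] at hz
      exact hpq I J _ κ (fun a => wal m z.1.2 a) (fun b => wal m z.2.2 b) hκ (fun a _ => hw1 _ _)
        (fun b _ => hw1 _ _) (hM z.1 hz.1 z.2 hz.2))
  refine hcg I J _ _ _ (fun i _ j _ => ?_) (hmono I J _ _ _ h1 ?_)
  · rw [sum_product]
  · rw [← sum_mul]
    refine mul_le_mul_of_nonneg_right ?_ hκ
    have h0 : 0 ≤ ∑ k ∈ Ix m, |c k| := sum_nonneg fun _ _ => abs_nonneg _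
    calc ∑ z ∈ Ix m ×ˢ Ix m, |c z.1 * c z.2| = (∑ k ∈ Ix m, |c k|) * ∑ k ∈ Ix m, |c k| := by
          rw [sum_product, sum_mul_sum]
          exact sum_congr rfl fun k _ => sum_congr rfl fun l _ => abs_mul _ _
      _ ≤ ((m : ℝ) + 1) ^ 2 := by
          rw [sq]
          exact mul_le_mul hc hc h0 (h0.trans hc)

/-- the diagonal case -/
theorem diag (hT : S_THR) (hO : S_OPT) {m A B L : ℕ} {P R : ℕ → ℕ → ℕ → ℝ} {κ κ' : ℝ}
    (hκ : 0 ≤ κ) (hκ' : 0 ≤ κ') (hA : A < 2 ^ m) (hB : B < 2 ^ m)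
    (hP0 : ∀ a l, P a l 0 = 0) (hR0 : ∀ b l, R b l 0 = 0)
    (hP : FB m (A + 1) L B P κ) (hR : FB m (B + 1) L A R κ') (d : ℕ → ℝ) {D : ℝ} (hD : 0 ≤ D)
    (hd : ∀ t < L, |d t| ≤ D) :
    Op (A + 1) (B + 1) (fun a b => ∑ t ∈ range L, d t * (P a t b * R b t a))
      (((m : ℝ) + 1) ^ 2 * (D * (κ * κ'))) := by
  obtain ⟨c, hc, hcc⟩ := thr hT m
  obtain ⟨Ph, hPh⟩ : ∃ Ph : ℕ → ℕ → ℕ → ℝ, ∀ x a t, Ph x a t =
      ∑ b ∈ range B, wal m x b * (P a t (b + 1) - P a t b) := ⟨_, fun _ _ _ => rfl⟩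
  obtain ⟨Rh, hRh⟩ : ∃ Rh : ℕ → ℕ → ℕ → ℝ, ∀ x b t, Rh x b t =
      ∑ a ∈ range A, wal m x a * (R b t (a + 1) - R b t a) := ⟨_, fun _ _ _ => rfl⟩
  have hPo : ∀ x < 2 ^ m, Op (A + 1) L (fun a t => Ph x a t) κ := by
    intro x hx
    have h := hP x hx
    refine hO.2.1 _ _ _ _ _ (fun i _ j _ => ?_) h
    rw [hPh]
  have hRo : ∀ x < 2 ^ m, Op (B + 1) L (fun b t => Rh x b t) κ' := by
    intro x hx
    have h := hR x hx
    refine hO.2.1 _ _ _ _ _ (fun i _ j _ => ?_) h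
    rw [hRh]
  have hM : ∀ k ∈ Ix m, ∀ l ∈ Ix m, Op (A + 1) (B + 1)
      (fun a b => ∑ t ∈ range L, d t * Ph l.1 a t * Rh k.1 b t) (D * (κ * κ')) := by
    intro k hk l hl
    obtain ⟨hmono, hcg, -, -, -, -, htr, -, -, -, -, hprod, -⟩ := hO
    have h1 := opd hκ hD hd (hPo l.1 (mem_Ix.1 hl).1)
    have h2 := htr _ _ _ _ (hRo k.1 (mem_Ix.1 hk).1)
    have h3 := hprod _ _ _ _ _ _ _ (mul_nonneg hD hκ) hκ' h1 h2
    exact hmono _ _ _ _ _ h3 (le_of_eq (by ring))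
  have h4 := lin2 hT hO hc _ (mul_nonneg hD (mul_nonneg hκ hκ')) hM
  refine hO.2.1 _ _ _ _ _ (fun a ha b hb => ?_) h4
  have e1 : ∀ t ∈ range L, d t * (P a t b * R b t a) =
      ∑ k ∈ Ix m, ∑ l ∈ Ix m, c k * c l * (wal m k.2 a * wal m l.2 b *
        (d t * Ph l.1 a t * Rh k.1 b t)) := by
    intro t _
    rw [exp1 hcc (fun b => P a t b) (hP0 a t) (Nat.lt_succ_iff.1 hb) hB,
      exp1 hcc (fun a => R b t a) (hR0 b t) (Nat.lt_succ_iff.1 ha) hA, mul_comm (∑ k ∈ Ix m, _),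
      sum_mul_sum, mul_sum]
    refine sum_congr rfl fun k _ => ?_
    rw [mul_sum]
    refine sum_congr rfl fun l _ => ?_
    rw [← hPh, ← hRh]
    ring
  rw [sum_congr rfl e1, sum_comm (s := range L)]
  refine sum_congr rfl fun k _ => ?_
  rw [sum_comm (s := range L)]
  refine sum_congr rfl fun l _ => ?_
  rw [mul_sum, mul_sum]

/-- expansion of functions of two variables -/
theorem exp2 {m : ℕ} {c : ℕ × ℕ → ℝ} (hc : ∀ i' i, i' < 2 ^ m → i < 2 ^ m →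
    (if i' < i then (1 : ℝ) else 0) = ∑ k ∈ Ix m, c k * (wal m k.1 i' * wal m k.2 i))
    (f : ℕ → ℕ → ℝ) (h0 : ∀ i, f i 0 = 0) (h0' : ∀ j, f 0 j = 0) {a b A B : ℕ} (ha : a ≤ A)
    (hb : b ≤ B) (hA : A < 2 ^ m) (hB : B < 2 ^ m) :
    f a b = ∑ k ∈ Ix m, ∑ l ∈ Ix m, c k * c l * (wal m k.2 a * wal m l.2 b *
      ∑ i ∈ range A, ∑ j ∈ range B, wal m k.1 i * wal m l.1 j *
        (f (i + 1) (j + 1) - f (i + 1) j - f i (j + 1) + f i j)) := by
  rw [exp1 hc (fun i => f i b) (h0' b) ha hA]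
  refine sum_congr rfl fun k _ => ?_
  have e1 : ∀ i ∈ range A, wal m k.1 i * (f (i + 1) b - f i b) =
      ∑ l ∈ Ix m, c l * (wal m l.2 b * ∑ j ∈ range B, wal m k.1 i * (wal m l.1 j *
        (f (i + 1) (j + 1) - f (i + 1) j - f i (j + 1) + f i j))) := by
    intro i _
    rw [exp1 hc (fun j => f (i + 1) j - f i j) (by rw [h0, h0, sub_zero]) hb hB, mul_sum]
    refine sum_congr rfl fun l _ => ?_
    rw [← mul_sum, mul_left_comm (wal m k.1 i), mul_left_comm (wal m k.1 i)]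
    congr 3
    refine sum_congr rfl fun j _ => ?_
    ring
  rw [sum_congr rfl e1, sum_comm, mul_sum, mul_sum]
  refine sum_congr rfl fun l _ => ?_
  rw [← mul_sum, ← mul_sum]
  have e2 : ∑ i ∈ range A, ∑ j ∈ range B, wal m k.1 i * (wal m l.1 j *
        (f (i + 1) (j + 1) - f (i + 1) j - f i (j + 1) + f i j)) =
      ∑ i ∈ range A, ∑ j ∈ range B, wal m k.1 i * wal m l.1 j *
        (f (i + 1) (j + 1) - f (i + 1) j - f i (j + 1) + f i j) :=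
    sum_congr rfl fun i _ => sum_congr rfl fun j _ => by ring
  rw [e2]
  ring

end N6h

open N6h

/-- WZ-N6: the star product -/
theorem t_FBS (hT : S_THR) (hO : S_OPT) (_hE : S_F2E) : S_FBS := by
  intro m A B L P R w κ κ' ω hκ hκ' hω hA hB hL hP0 hR0 hP hR hw g hg
  obtain ⟨c, hc, hcc⟩ := thr hT m
  have hwl := (hT m).2.2.2.2
  have hw1 : ∀ a i, |wal m a i| = 1 := by
    intro a i
    rcases hwl a i with h | h <;> rw [h] <;> norm_num
  obtain ⟨H, hH⟩ : ∃ H : ℕ → ℕ → ℕ → ℝ, ∀ t x x', H t x x' =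
      ∑ i ∈ range A, ∑ j ∈ range B, wal m x i * wal m x' j *
        (w t (i + 1) (j + 1) - w t (i + 1) j - w t i (j + 1) + w t i j) := ⟨_, fun _ _ _ => rfl⟩
  have hHb : ∀ t < L, ∀ x < 2 ^ m, ∀ x' < 2 ^ m, |H t x x'| ≤ ω := by
    intro t ht x hx x' hx'
    rw [hH]
    exact (hw t ht).2.2 x hx x' hx'
  have h1 := diag hT hO hκ hκ' hA hB hP0 hR0 hP hR (fun t => wal m g t) zero_le_one
    (fun t _ => (hw1 g t).le)
  have hM : ∀ k ∈ Ix m, ∀ l ∈ Ix m, Op (A + 1) (B + 1)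
      (fun a b => ∑ t ∈ range L, (wal m g t * H t k.1 l.1) * (P a t b * R b t a))
      (((m : ℝ) + 1) ^ 2 * (ω * (κ * κ'))) := by
    intro k hk l hl
    refine diag hT hO hκ hκ' hA hB hP0 hR0 hP hR (fun t => wal m g t * H t k.1 l.1) hω
      (fun t ht => ?_)
    rw [abs_mul, hw1, one_mul]
    exact hHb t ht k.1 (mem_Ix.1 hk).1 l.1 (mem_Ix.1 hl).1
  have h2 := lin2 hT hO hc _ (by positivity) hM
  have h3 := hO.2.2.2.1 _ _ _ _ _ _ h1 h2
  refine hO.2.1 _ _ _ _ _ (fun a ha b hb => ?_) (hO.1 _ _ _ _ _ h3 (le_of_eq (by ring)))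
  have e1 : ∀ t ∈ range L, wal m g t * ((∑ l ∈ range (t + 1), P a l b * R b l a * (1 + w l a b)) -
      ∑ l ∈ range t, P a l b * R b l a * (1 + w l a b)) =
      wal m g t * (P a t b * R b t a) + ∑ k ∈ Ix m, ∑ l ∈ Ix m, c k * c l *
        (wal m k.2 a * wal m l.2 b * (wal m g t * H t k.1 l.1 * (P a t b * R b t a))) := by
    intro t ht
    rw [mem_range] at ht
    obtain ⟨hw0, hw0', -⟩ := hw t ht
    rw [sum_range_succ, add_sub_cancel_left]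
    have e2 : wal m g t * (P a t b * R b t a * (1 + w t a b)) = wal m g t * (P a t b * R b t a) +
        wal m g t * (P a t b * R b t a) * w t a b := by ring
    rw [e2]
    congr 1
    rw [exp2 hcc (w t) hw0 hw0' (Nat.lt_succ_iff.1 ha) (Nat.lt_succ_iff.1 hb) hA hB, mul_sum]
    refine sum_congr rfl fun k _ => ?_
    rw [mul_sum]
    refine sum_congr rfl fun l _ => ?_
    rw [← hH]
    ring
  rw [sum_congr rfl e1, sum_add_distrib]
  congr 1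
  rw [sum_comm (s := range L)]
  refine sum_congr rfl fun k _ => ?_
  rw [sum_comm (s := range L)]
  refine sum_congr rfl fun l _ => ?_
  rw [mul_sum, mul_sum]

end Pool.Agent.NH34.WZ
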