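import Pool.Agent.NH34.WZ.StmN

/-!
# WZ-N7: the relations in convenient form (helper45)
-/

set_option autoImplicit false

namespace Pool.Agent.NH34.WZ

open Finset
open Pool.Agent.NH99.WZ

namespace N7

theorem up_sum (r : Ed) (t : Fin 3) : ∑ i, up r t i = ∑ i, r i + 1 := by
  unfold up
  rw [Finset.sum_update_of_mem (Finset.mem_univ t), ← Finset.add_sum_erase _ _ (Finset.mem_univ t),
    Finset.sdiff_singleton_eq_erase]
  ring

end N7

theorem t_REL (hS : S_SYS) : S_REL := by
  intro n X y hD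
  obtain ⟨-, -, h3, h4, -, h6, h7, h8, h9, h10, -, -⟩ := hS
  have hX : Sg X := hD.sgn
  have hsmall : ∀ r : Ed, ∑ i, r i ≤ n + 2 → DD y r = 1 := fun r hr =>
    h3 n y hD.zero r (by omega)
  refine ⟨hsmall, fun t r hd => h4 X y t r hX hd, fun t u r htu hd hd' =>
    h7 X y t u r hX htu hd hd', fun w r hd hd' => ?_, fun t u r htu h0 => h9 X y t u r htu h0,
    fun w r h0 => h10 X y w r h0, fun r hd => ?_⟩
  · rw [h8 X y w r hX hd hd']
    have hy : y r / DD y (up r w) = y r := by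
      by_cases hr : ∑ i, r i = n
      · rw [hsmall (up r w) (by rw [N7.up_sum]; omega), div_one]
      · rw [hD.zero r hr, zero_div]
    rw [mul_div_assoc (X (w + 1) (r (w + 1)) * X (w + 2) (r (w + 2))) (y r), hy,
      mul_comm (PP X y (w + 1) r)]
    ring
  · rw [h6 X y r hX hd]
    have e1 : (0 : Fin 3) + 1 = 1 := rfl
    have e2 : (0 : Fin 3) + 2 = 2 := rfl
    have e3 : (1 : Fin 3) + 1 = 2 := rfl
    have e4 : (1 : Fin 3) + 2 = 0 := rfl
    have e5 : (2 : Fin 3) + 1 = 0 := rfl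
    have e6 : (2 : Fin 3) + 2 = 1 := rfl
    simp only [Fin.sum_univ_three, Fin.prod_univ_three, e1, e2, e3, e4, e5, e6]
    ring

end Pool.Agent.NH34.WZ
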