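import Pool.Agent.NH34.WZ.StmN

set_option autoImplicit false

/-!
# WZ-N8: covariances in a box, induction over boxes
-/

namespace Pool.Agent.NH34.WZ

open Finset
open Pool.Agent.NH99.WZ

noncomputable section

namespace N8

lemma cases3 (w k : Fin 3) : k = w ∨ k = w + 1 ∨ k = w + 2 := by
  revert w k; decide

lemma ne1 (w : Fin 3) : w + 1 ≠ w := by revert w; decide
lemma ne2 (w : Fin 3) : w + 2 ≠ w := by revert w; decide
lemma ne3 (w : Fin 3) : w + 2 ≠ w + 1 := by revert w; decide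
lemma a21 (w : Fin 3) : w + 2 + 1 = w := by revert w; decide
lemma a22 (w : Fin 3) : w + 2 + 2 = w + 1 := by revert w; decide
lemma a11 (w : Fin 3) : w + 1 + 1 = w + 2 := by revert w; decide
lemma a12 (w : Fin 3) : w + 1 + 2 = w := by revert w; decide

lemma cl0 (w : Fin 3) (a b c : ℕ) : cl w (w + 1) a b c w = a := by
  simp [cl]

lemma cl1 (w : Fin 3) (a b c : ℕ) : cl w (w + 1) a b c (w + 1) = b := by
  simp [cl]

lemma cl2 (w : Fin 3) (a b c : ℕ) : cl w (w + 1) a b c (w + 2) = c := by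
  simp only [cl, ne2, ne3, if_false]

lemma cl_ext (w : Fin 3) (r r' : Ed) (h0 : r w = r' w) (h1 : r (w + 1) = r' (w + 1))
    (h2 : r (w + 2) = r' (w + 2)) : r = r' := by
  funext k
  rcases cases3 w k with h | h | h <;> rw [h]
  · exact h0
  · exact h1
  · exact h2

lemma cl_self (w : Fin 3) (r : Ed) : cl w (w + 1) (r w) (r (w + 1)) (r (w + 2)) = r :=
  cl_ext w _ _ (cl0 _ _ _ _) (cl1 _ _ _ _) (cl2 _ _ _ _)

lemma up0 (r : Ed) (w : Fin 3) : up r w w = r w + 1 := by simp [up]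
lemma up1 (r : Ed) (w : Fin 3) : up r w (w + 1) = r (w + 1) := by simp [up]
lemma up2 (r : Ed) (w : Fin 3) : up r w (w + 2) = r (w + 2) := by
  simp only [up, Function.update, ne2, dite_false]

lemma up_cl (w : Fin 3) (l i j : ℕ) : up (cl w (w + 1) l i j) w = cl w (w + 1) (l + 1) i j := by
  apply cl_ext w
  · rw [up0, cl0, cl0]
  · rw [up1, cl1, cl1]
  · rw [up2, cl2, cl2]

lemma cl_a (w : Fin 3) (l i j : ℕ) : cl (w + 2) (w + 2 + 1) j l i = cl w (w + 1) l i j := by
  apply cl_ext (w + 2)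
  · rw [cl0, cl2]
  · rw [cl1, a21, cl0]
  · rw [cl2, a22, cl1]

lemma cl_b (w : Fin 3) (l i j : ℕ) : cl (w + 1) (w + 1 + 1) i j l = cl w (w + 1) l i j := by
  apply cl_ext (w + 1)
  · rw [cl0, cl1]
  · rw [cl1, a11, cl2]
  · rw [cl2, a12, cl0]

lemma cl_a' (w : Fin 3) (l i j : ℕ) : cl (w + 2) w j l i = cl w (w + 1) l i j := by
  have := cl_a w l i j
  rwa [a21] at this

lemma cl_b' (w : Fin 3) (l i j : ℕ) : cl (w + 1) (w + 2) i j l = cl w (w + 1) l i j := by
  have := cl_b w l i j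
  rwa [a11] at this

lemma cl_le (w : Fin 3) {l i j : ℕ} {s : Ed} (h0 : l ≤ s w) (h1 : i ≤ s (w + 1))
    (h2 : j ≤ s (w + 2)) : cl w (w + 1) l i j ≤ s := by
  intro k
  rcases cases3 w k with h | h | h <;> rw [h]
  · rwa [cl0]
  · rwa [cl1]
  · rwa [cl2]

lemma up_le {r s : Ed} {t : Fin 3} (h : r ≤ s) (ht : r t < s t) : up r t ≤ s := by
  intro k
  rcases cases3 t k with hk | hk | hk <;> rw [hk]
  · rw [up0]; exact ht
  · rw [up1]; exact h _
  · rw [up2]; exact h _

/-- lower one coordinate -/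
def dn (r : Ed) (t : Fin 3) : Ed := Function.update r t (r t - 1)

lemma dn0 (r : Ed) (w : Fin 3) : dn r w w = r w - 1 := by simp [dn]
lemma dn1 (r : Ed) (w : Fin 3) : dn r w (w + 1) = r (w + 1) := by simp [dn]
lemma dn2 (r : Ed) (w : Fin 3) : dn r w (w + 2) = r (w + 2) := by
  simp only [dn, Function.update, ne2, dite_false]

lemma dn_le (r : Ed) (w : Fin 3) : dn r w ≤ r := by
  intro k
  rcases cases3 w k with hk | hk | hk <;> rw [hk]
  · rw [dn0]; exact Nat.sub_le _ _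
  · rw [dn1]
  · rw [dn2]

lemma up_dn (r : Ed) (w : Fin 3) (h : 1 ≤ r w) : up (dn r w) w = r := by
  apply cl_ext w
  · rw [up0, dn0]; omega
  · rw [up1, dn1]
  · rw [up2, dn2]

lemma sum3 (r : Ed) (w : Fin 3) : ∑ i, r i = r w + r (w + 1) + r (w + 2) := by
  rw [Fin.sum_univ_three]
  fin_cases w
  · rfl
  · show r 0 + r 1 + r 2 = r 1 + r 2 + r 0
    ring
  · show r 0 + r 1 + r 2 = r 2 + r 0 + r 1
    ring

lemma sum_dn (r : Ed) (w : Fin 3) (h : 1 ≤ r w) : ∑ i, dn r w i + 1 = ∑ i, r i := by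
  rw [sum3 _ w, sum3 r w, dn0, dn1, dn2]; omega

/-- (A) -/
lemma bdA (hF : S_FB) (hR : S_REL) {m n : ℕ} {δ : ℝ} {X : Fin 3 → ℕ → ℝ} {y : Ed → ℝ} {s : Ed}
    (hD : Dat n X y) (hBS : ∀ r : Ed, r ≤ s → BS m X y r δ) :
    ∀ (t : Fin 3) (r : Ed), r ≤ s → r t < s t → |AA X y t r| ≤ δ := by
  obtain ⟨_, _, _, _, _, _, _, _, _, _, f11⟩ := hF
  obtain ⟨_, _, _, _, z5, _, _⟩ := hR n X y hD
  intro t r hr ht
  have h2 := hBS _ (up_le hr ht) t (r t) (by rw [up0]; omega)
  rw [up1, up2] at h2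
  have h3 := f11 _ _ _ _ _ h2 (fun i => z5 t (t + 2) _ (ne2 t).symm (cl2 _ _ _ _))
    (fun j => z5 t (t + 1) _ (ne1 t).symm (cl1 _ _ _ _))
  rwa [cl_self] at h3

/-- (B) -/
lemma pos (hR : S_REL) {n : ℕ} {δ : ℝ} {X : Fin 3 → ℕ → ℝ} {y : Ed → ℝ} {s : Ed}
    (hD : Dat n X y) (hδ : δ < 1)
    (hA : ∀ (t : Fin 3) (r : Ed), r ≤ s → r t < s t → |AA X y t r| ≤ δ) :
    ∀ (N : ℕ) (r : Ed), ∑ i, r i = N → r ≤ s → 0 < DD y r := by
  obtain ⟨z1, z2, _⟩ := hR n X y hD
  intro N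
  induction N with
  | zero =>
    intro r hN hr
    rw [z1 r (by omega)]; norm_num
  | succ N ih =>
    intro r hN hr
    have : ∃ t, 1 ≤ r t := by
      by_contra hcon
      push Not at hcon
      have : ∑ i, r i = 0 := Finset.sum_eq_zero (fun i _ => by have := hcon i; omega)
      omega
    obtain ⟨t, ht⟩ := this
    have h1 : 0 < DD y (dn r t) := ih (dn r t) (by have := sum_dn r t ht; omega)
      (le_trans (dn_le r t) hr)
    have h2 : |AA X y t (dn r t)| ≤ δ := hA t _ (le_trans (dn_le r t) hr)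
      (by rw [dn0]; have h5 : r t ≤ s t := hr t; omega)
    have h3 := z2 t (dn r t) h1.ne'
    rw [up_dn r t ht] at h3
    rw [h3]
    refine mul_pos h1 ?_
    have h4 : |X t (dn r t t) * AA X y t (dn r t)| < 1 := by
      rw [abs_mul]
      have : |X t (dn r t t)| = 1 := by
        rcases hD.sgn t (dn r t t) with h | h <;> rw [h] <;> norm_num
      rw [this, one_mul]; linarith
    have := (abs_lt.mp h4).1
    linarith

/-- (C) -/
lemma chain (hR : S_REL) {n : ℕ} {X : Fin 3 → ℕ → ℝ} {y : Ed → ℝ} {s : Ed}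
    (hD : Dat n X y) (hpos : ∀ r : Ed, r ≤ s → 0 < DD y r) (w : Fin 3) (i j : ℕ)
    (hi : i ≤ s (w + 1)) (hj : j ≤ s (w + 2)) :
    ∀ t, t ≤ s w → PP X y w (cl w (w + 1) t i j) =
      ∑ l ∈ range t, X (w + 1) i * X (w + 2) j * y (cl w (w + 1) l i j) +
      -∑ l ∈ range t, PP X y (w + 2) (cl w (w + 1) l i j) * PP X y (w + 1) (cl w (w + 1) l i j) *
        (1 + (1 / (1 + X w l * AA X y w (cl w (w + 1) l i j)) ^ 2 - 1)) := by
  obtain ⟨z1, z2, _, z4, _, z6, _⟩ := hR n X y hD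
  intro t
  induction t with
  | zero =>
    intro _
    rw [z6 w _ (cl0 _ _ _ _)]
    simp
  | succ t ih =>
    intro ht
    have e := z4 w (cl w (w + 1) t i j) (hpos _ (cl_le w (by omega) hi hj)).ne'
      (by rw [up_cl]; exact (hpos _ (cl_le w ht hi hj)).ne')
    rw [up_cl, cl0, cl1, cl2, ih (by omega)] at e
    rw [e, Finset.sum_range_succ, Finset.sum_range_succ]
    ring

end N8

theorem t_PFB (hO : S_OPT) (hF : S_FB) (hI : S_F2I) (hS : S_FBS) (hR : S_REL) : S_PFB := by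
  intro m n β δ X y s hD hβ hβδ hδ hs hB
  have hδ0 : 0 < δ := by linarith
  have hm1 : (1 : ℝ) ≤ (m : ℝ) + 1 := by have : (0 : ℝ) ≤ m := Nat.cast_nonneg _; linarith
  have hm2 : (1 : ℝ) ≤ ((m : ℝ) + 1) ^ 2 := one_le_pow₀ hm1
  have hm4 : ((m : ℝ) + 1) ^ 2 ≤ ((m : ℝ) + 1) ^ 4 := pow_le_pow_right₀ hm1 (by norm_num)
  have hδm : 400 * ((m : ℝ) + 1) ^ 2 * δ ≤ 1 := by
    have := mul_le_mul_of_nonneg_right hm4 hδ0.le
    linarith
  have hδ1 : δ < 1 := by nlinarith
  have hA := N8.bdA hF hR hD (fun r hr => (hB r hr).2)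
  have hpos : ∀ r : Ed, r ≤ s → 0 < DD y r := fun r hr => N8.pos hR hD hδ1 hA _ r rfl hr
  refine ⟨hpos, hA, ?_⟩
  obtain ⟨f1, f2, f3, f4, f5, f6, f7, f8, f9, f10, f11⟩ := hF
  obtain ⟨o1, o2, _⟩ := hO
  obtain ⟨_, _, _, _, z5, z6, _⟩ := hR n X y hD
  suffices H : ∀ (N : ℕ) (r : Ed), ∑ i, r i = N → r ≤ s → ∀ w : Fin 3,
      FB m (r (w + 1) + 1) (r (w + 2) + 1) (r w)
        (fun i j τ => PP X y w (cl w (w + 1) τ i j)) (2 * β) from
    fun r hr w => H _ r rfl hr w
  intro N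
  induction N using Nat.strong_induction_on with
  | _ N ih =>
    intro r hN hr w
    rcases Nat.eq_zero_or_pos (r w) with h0 | h0
    · rw [h0]
      intro a _ x z
      simp only [Finset.range_zero, Finset.sum_empty, mul_zero, Finset.sum_const_zero, abs_zero]
      positivity
    · -- the lowered cell
      have hdn := N8.sum_dn r w h0
      have hdle : N8.dn r w ≤ s := le_trans (N8.dn_le r w) hr
      have i1 := ih (N - 1) (by omega) (N8.dn r w) (by omega) hdle (w + 2)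
      have i2 := ih (N - 1) (by omega) (N8.dn r w) (by omega) hdle (w + 1)
      rw [N8.a21, N8.a22, N8.dn0, N8.dn1, N8.dn2] at i1
      rw [N8.a11, N8.a12, N8.dn0, N8.dn1, N8.dn2] at i2
      have eL : r w - 1 + 1 = r w := by omega
      rw [eL] at i1 i2
      -- the indices
      have hw : r w < 2 ^ m := lt_of_le_of_lt (hr w) (hs w)
      have hw1 : r (w + 1) < 2 ^ m := lt_of_le_of_lt (hr _) (hs _)
      have hw2 : r (w + 2) < 2 ^ m := lt_of_le_of_lt (hr _) (hs _)
      -- the first factor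
      have j1 : FB m (r (w + 1) + 1) (r w) (r (w + 2))
          (fun a l b => PP X y (w + 2) (cl w (w + 1) l a b)) (2 * β) := by
        have := f1 _ _ _ _ _ _ i1
        simpa only [N8.cl_a'] using this
      have j2 : FB m (r (w + 2) + 1) (r w) (r (w + 1))
          (fun b l a => PP X y (w + 1) (cl w (w + 1) l a b)) (2 * β) := by
        simpa only [N8.cl_b'] using i2
      -- the weights
      have j3 : ∀ l < r w,
          (∀ a, (1 / (1 + X w l * AA X y w (cl w (w + 1) l a 0)) ^ 2 - 1 : ℝ) = 0) ∧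
          (∀ b, (1 / (1 + X w l * AA X y w (cl w (w + 1) l 0 b)) ^ 2 - 1 : ℝ) = 0) ∧
          F2 m (r (w + 1)) (r (w + 2))
            (fun a b => 1 / (1 + X w l * AA X y w (cl w (w + 1) l a b)) ^ 2 - 1) (5 * δ) := by
        intro l hl
        have c1 : ∀ a, AA X y w (cl w (w + 1) l a 0) = 0 := fun a =>
          z5 w (w + 2) _ (N8.ne2 w).symm (N8.cl2 _ _ _ _)
        have c2 : ∀ b, AA X y w (cl w (w + 1) l 0 b) = 0 := fun b =>
          z5 w (w + 1) _ (N8.ne1 w).symm (N8.cl1 _ _ _ _)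
        refine ⟨fun a => by rw [c1]; norm_num, fun b => by rw [c2]; norm_num, ?_⟩
        have g1 := (hB r hr).2 w l hl
        have g2 := f9 _ _ _ _ _ (X w l) g1
        have g3 : |X w l| * δ = δ := by
          rcases hD.sgn w l with h | h <;> rw [h] <;> norm_num
        rw [g3] at g2
        exact (hI m _ _ (fun a b => X w l * AA X y w (cl w (w + 1) l a b)) δ hδ0.le hw1 hw2
          (fun a => by simp only [c1, mul_zero]) (fun b => by simp only [c2, mul_zero])
          (by linarith) g2).2.1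
      -- the star product
      have j4 := hS m (r (w + 1)) (r (w + 2)) (r w)
        (fun a l b => PP X y (w + 2) (cl w (w + 1) l a b))
        (fun b l a => PP X y (w + 1) (cl w (w + 1) l a b))
        (fun l a b => 1 / (1 + X w l * AA X y w (cl w (w + 1) l a b)) ^ 2 - 1)
        (2 * β) (2 * β) (5 * δ) (by linarith) (by linarith) (by linarith) hw1 hw2 hw
        (fun a l => z6 (w + 2) _ (N8.cl2 _ _ _ _)) (fun b l => z6 (w + 1) _ (N8.cl1 _ _ _ _))
        j1 j2 j3
      have j5 : ((m : ℝ) + 1) ^ 2 * (1 + ((m : ℝ) + 1) ^ 2 * (5 * δ)) * (2 * β * (2 * β)) ≤ β := by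
        have k1 : ((m : ℝ) + 1) ^ 2 * (5 * δ) ≤ 1 := by linarith
        have k2 : 8 * (((m : ℝ) + 1) ^ 2 * β) ≤ 1 := by
          have := mul_le_mul_of_nonneg_left hβδ (le_trans zero_le_one hm2)
          linarith
        have k3 : 0 ≤ ((m : ℝ) + 1) ^ 2 * β := by positivity
        calc ((m : ℝ) + 1) ^ 2 * (1 + ((m : ℝ) + 1) ^ 2 * (5 * δ)) * (2 * β * (2 * β))
            = (1 + ((m : ℝ) + 1) ^ 2 * (5 * δ)) * (4 * β) * (((m : ℝ) + 1) ^ 2 * β) := by ring
          _ ≤ (1 + 1) * (4 * β) * (((m : ℝ) + 1) ^ 2 * β) := by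
              apply mul_le_mul_of_nonneg_right _ k3
              apply mul_le_mul_of_nonneg_right _ (by linarith)
              linarith
          _ = (8 * (((m : ℝ) + 1) ^ 2 * β)) * β := by ring
          _ ≤ 1 * β := mul_le_mul_of_nonneg_right k2 hβ.le
          _ = β := one_mul β
      have j6 := f2 _ _ _ _ _ _ _ _ _ j4 j5 le_rfl le_rfl
      have j7 := f5 _ _ _ _ _ _ j6
      -- the births
      have j8 : FB m (r (w + 1) + 1) (r (w + 2) + 1) (r w)
          (fun i j τ => ∑ l ∈ range τ, X (w + 1) i * X (w + 2) j * y (cl w (w + 1) l i j)) β := by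
        intro a ha
        have := (hB r hr).1 w a ha
        refine o2 _ _ _ _ _ ?_ this
        intro i _ j _
        apply Finset.sum_congr rfl
        intro τ _
        beta_reduce
        rw [Finset.sum_range_succ]
        ring
      have j9 := f4 _ _ _ _ _ _ _ _ j8 j7
      have e2 : β + β = 2 * β := by ring
      rw [e2] at j9
      refine f3 _ _ _ _ _ _ _ j9 ?_
      intro i hi j hj τ hτ
      have hr1 : r (w + 1) ≤ s (w + 1) := hr _
      have hr2 : r (w + 2) ≤ s (w + 2) := hr _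
      have hr0 : r w ≤ s w := hr _
      exact (N8.chain hR hD hpos w i j (by omega) (by omega) τ (by omega)).symm

end

end Pool.Agent.NH34.WZ
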