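import Pool.Agent.NH34.WZ.StmN

set_option autoImplicit false

/-!
# Project WZ: bounds in a good box
-/

namespace Pool.Agent.NH34.WZ

open Finset
open Pool.Agent.NH99.WZ

namespace N9

/-! ### Cells and orientations -/

theorem cl_self (t : Fin 3) (r : Ed) : cl t (t + 1) (r t) (r (t + 1)) (r (t + 2)) = r := by
  funext i
  fin_cases t <;> fin_cases i <;> simp [cl]

theorem cl_fst (t u : Fin 3) (a b c : ℕ) : cl t u a b c t = a := by simp [cl]

theorem cl_snd {t u : Fin 3} (h : t ≠ u) (a b c : ℕ) : cl t u a b c u = b := by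
  simp [cl, h.symm]

theorem thd_ne : ∀ {t u : Fin 3}, t ≠ u → thd t u ≠ t ∧ thd t u ≠ u := by
  intro t u h
  revert t u; unfold thd; decide

theorem cl_thd {t u : Fin 3} (h : t ≠ u) (a b c : ℕ) : cl t u a b c (thd t u) = c := by
  simp [cl, (thd_ne h).1, (thd_ne h).2]

theorem cl_two (t : Fin 3) (a b c : ℕ) : cl t (t + 1) a b c (t + 2) = c := by
  fin_cases t <;> simp [cl]

theorem ne_one : ∀ t : Fin 3, t ≠ t + 1 := by decide

theorem ne_two : ∀ t : Fin 3, t ≠ t + 2 := by decide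

theorem ori0 : ∀ t u : Fin 3, t ≠ u →
    (t = thd t u + 1 ∧ u = thd t u + 2) ∨ (t = thd t u + 2 ∧ u = thd t u + 1) := by
  unfold thd; decide

theorem clA (w : Fin 3) (a b c : ℕ) : cl (w + 1) (w + 2) a b c = cl w (w + 1) c a b := by
  funext i
  fin_cases w <;> fin_cases i <;> simp [cl]

theorem clB (w : Fin 3) (a b c : ℕ) : cl (w + 2) (w + 1) a b c = cl w (w + 1) c b a := by
  funext i
  fin_cases w <;> fin_cases i <;> simp [cl]

theorem clC (w : Fin 3) (a b c : ℕ) :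
    cl (w + 2) (w + 2 + 1) b c a = cl (w + 1) (w + 2) a b c := by
  funext i
  fin_cases w <;> fin_cases i <;> simp [cl]

theorem clD (w : Fin 3) (a b c : ℕ) :
    cl (w + 1) (w + 1 + 1) b a c = cl (w + 2) (w + 1) a b c := by
  funext i
  fin_cases w <;> fin_cases i <;> simp [cl]

/-- the covariances in the orientation `t, u` -/
theorem pfam (hF : S_FB) {m : ℕ} {X : Fin 3 → ℕ → ℝ} {y : Ed → ℝ} {s : Ed} {κ : ℝ}
    (h : ∀ w : Fin 3, FB m (s (w + 1) + 1) (s (w + 2) + 1) (s w)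
      (fun i j τ => PP X y w (cl w (w + 1) τ i j)) κ) {t u : Fin 3} (htu : t ≠ u) :
    FB m (s t + 1) (s u + 1) (s (thd t u))
      (fun i j τ => PP X y (thd t u) (cl t u i j τ)) κ := by
  have h0 := ori0 t u htu
  obtain ⟨w, hw⟩ : ∃ w, w = thd t u := ⟨_, rfl⟩
  rw [← hw] at h0 ⊢
  rcases h0 with ⟨h1, h2⟩ | ⟨h1, h2⟩
  · rw [h1, h2]
    simp only [clA]
    exact h w
  · rw [h1, h2]
    simp only [clB]
    exact hF.1 _ _ _ _ _ _ (h w)

/-- the biases in the orientation `t, u` -/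
theorem afam (hF : S_FB) {m : ℕ} {X : Fin 3 → ℕ → ℝ} {y : Ed → ℝ} {s : Ed} {κ : ℝ} {v : ℕ}
    {t u : Fin 3} (htu : t ≠ u)
    (h : F2 m (s (u + 1)) (s (u + 2)) (fun i j => AA X y u (cl u (u + 1) v i j)) κ) :
    F2 m (s t) (s (thd t u)) (fun i τ => AA X y u (cl t u i v τ)) κ := by
  have h0 := ori0 t u htu
  obtain ⟨w, hw⟩ : ∃ w, w = thd t u := ⟨_, rfl⟩
  rw [← hw] at h0 ⊢
  have e1 : ∀ w : Fin 3, w + 2 + 1 = w := by decide
  have e2 : ∀ w : Fin 3, w + 2 + 2 = w + 1 := by decide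
  have e3 : ∀ w : Fin 3, w + 1 + 1 = w + 2 := by decide
  have e4 : ∀ w : Fin 3, w + 1 + 2 = w := by decide
  rcases h0 with ⟨h1, h2⟩ | ⟨h1, h2⟩
  · subst h2
    rw [h1]
    have h3 : F2 m (s w) (s (w + 1))
        (fun i j => AA X y (w + 2) (cl (w + 1) (w + 2) j v i)) κ := by
      have h4 := h
      simp only [clC] at h4
      rwa [e1, e2] at h4
    exact hF.2.2.2.2.2.2.1 _ _ _ _ _ h3
  · subst h2
    rw [h1]
    have h4 := h
    simp only [clD] at h4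
    rwa [e3, e4] at h4

/-- the condition contains the box conditions -/
theorem of_cond {m : ℕ} {β δ : ℝ} {X : Fin 3 → ℕ → ℝ} {y : Ed → ℝ} {r : Ed}
    (h : Cond m β δ X y r) : BB m X y r β ∧ BS m X y r δ :=
  ⟨fun w a ha => h.1 w a ha, fun t v hv => h.2 t v hv.le⟩

theorem abs_sg {x : ℝ} (h : x = 1 ∨ x = -1) : |x| = 1 := by
  rcases h with h | h <;> simp [h]

end N9

theorem t_GFB (hO : S_OPT) (hF : S_FB) (hI : S_F2I) (hM : S_FBM) (hR : S_REL) (hP : S_PFB) :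
    S_GFB := by
  intro m n ρ β δ X y q hD hN hq hG
  have hβ := hN.beta
  have hβδ := hN.hβ
  have hδ := hN.hδ
  have hδ0 : 0 < δ := by linarith
  have hm1 : 1 ≤ (m : ℝ) + 1 := by
    have : (0 : ℝ) ≤ m := Nat.cast_nonneg m
    linarith
  have hm2 : 1 ≤ ((m : ℝ) + 1) ^ 2 := one_le_pow₀ hm1
  have hm24 : ((m : ℝ) + 1) ^ 2 ≤ ((m : ℝ) + 1) ^ 4 := pow_le_pow_right₀ hm1 (by norm_num)
  have hδ2 : 1000 * (((m : ℝ) + 1) ^ 2 * δ) ≤ 1 := by
    have : ((m : ℝ) + 1) ^ 2 * δ ≤ ((m : ℝ) + 1) ^ 4 * δ := by gcongr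
    linarith
  have hm2δ0 : 0 ≤ ((m : ℝ) + 1) ^ 2 * δ := by positivity
  have hqm : ∀ i, q i < 2 ^ m := fun i => by
    have h1 := hq i
    have h2 := hN.hm
    omega
  have hall : ∀ r : Ed, r ≤ q → BB m X y r β ∧ BS m X y r δ := fun r hr => N9.of_cond (hG r hr)
  obtain ⟨P1, P2, P3⟩ := hP m n β δ X y q hD hβ (by linarith) (by
    have : 0 ≤ ((m : ℝ) + 1) ^ 4 * δ := by positivity
    linarith) hqm hall
  obtain ⟨-, -, -, -, R5, R6, -⟩ := hR n X y hD
  obtain ⟨-, B2, B3, B4, -, B6, -, -, B9, -, B11⟩ := id hF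
  obtain ⟨-, -, -, -, -, -, -, O8, -⟩ := hO
  constructor
  · intro r hr
    refine ⟨P1 r hr, fun t => ?_, fun w => ?_⟩
    · have h1 := (hG r hr).2 t (r t) le_rfl
      have h2 := B11 m (r (t + 1)) (r (t + 2)) _ δ h1
        (fun i => R5 t (t + 2) _ (N9.ne_two t) (N9.cl_two _ _ _ _))
        (fun j => R5 t (t + 1) _ (N9.ne_one t) (N9.cl_snd (N9.ne_one t) _ _ _))
      rwa [N9.cl_self] at h2
    · have h1 := P3 r hr w
      have h2 := B6 m _ _ _ _ _ h1 (fun i _ j _ => R6 w _ (N9.cl_fst _ _ _ _ _))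
      have h3 := O8 _ _ _ _ h2 (r (w + 1)) (Nat.lt_succ_self _) (r (w + 2))
        (Nat.lt_succ_self _)
      rwa [N9.cl_self] at h3
  · intro t u htu
    have hw := N9.thd_ne htu
    have hG1 := N9.pfam hF (P3 q le_rfl) htu
    have hz1 : ∀ i j, AA X y u (cl t u i j 0) = 0 := fun i j =>
      R5 u (thd t u) _ hw.2.symm (N9.cl_thd htu _ _ _)
    have hz2 : ∀ j τ, AA X y u (cl t u 0 j τ) = 0 := fun j τ =>
      R5 u t _ htu.symm (N9.cl_fst _ _ _ _ _)
    have hz3 : ∀ i j, PP X y (thd t u) (cl t u i j 0) = 0 := fun i j =>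
      R6 (thd t u) _ (N9.cl_thd htu _ _ _)
    have hh : ∀ j < q u + 1,
        (∀ i, (fun j i τ => 1 / (1 + X u j * AA X y u (cl t u i j τ)) - 1 : ℕ → ℕ → ℕ → ℝ) j i 0 = 0) ∧
        (∀ τ, (fun j i τ => 1 / (1 + X u j * AA X y u (cl t u i j τ)) - 1 : ℕ → ℕ → ℕ → ℝ) j 0 τ = 0) ∧
        F2 m (q t) (q (thd t u))
          ((fun j i τ => 1 / (1 + X u j * AA X y u (cl t u i j τ)) - 1 : ℕ → ℕ → ℕ → ℝ) j)
          (2 * δ) := by
      intro j hj
      refine ⟨fun i => by simp [hz1], fun τ => by simp [hz2], ?_⟩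
      have a1 := N9.afam hF htu ((hG q (fun _ => le_rfl)).2 u j (by omega))
      have a2 := B9 m _ _ _ δ (X u j) a1
      rw [N9.abs_sg (hD.sgn u j), one_mul] at a2
      exact (hI m (q t) (q (thd t u)) (fun i τ => X u j * AA X y u (cl t u i j τ)) δ hδ0.le
        (hqm _) (hqm _) (fun i => by simp [hz1]) (fun τ => by simp [hz2]) (by linarith) a2).1
    have hFB := hM m (q t) (q u + 1) (q (thd t u))
      (fun i j τ => PP X y (thd t u) (cl t u i j τ))
      (fun j i τ => 1 / (1 + X u j * AA X y u (cl t u i j τ)) - 1) (2 * β) (2 * δ)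
      (by positivity) (by positivity) (hqm _) (hqm _) hz3 hh hG1
    have hadd := B4 m _ _ _ _ _ _ _ hG1 hFB
    refine B3 m _ _ _ _ _ _ (B2 m _ _ _ (q t + 1) (q u + 1) _ _ (3 * β) hadd ?_ le_rfl le_rfl)
      ?_
    · have : ((m : ℝ) + 1) ^ 2 * δ * β ≤ 1 / 1000 * β := by
        apply mul_le_mul_of_nonneg_right _ hβ.le
        linarith
      nlinarith
    · intro i _ j _ τ _
      unfold GG
      rw [N9.cl_snd htu]
      ring

end Pool.Agent.NH34.WZ
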