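import Pool.Agent.NH99.WZ.StmC

set_option autoImplicit false

/-!
# Project WZ: the deterministic norm layer, statements

Every statement is a proposition `S_...`; the complete proofs are in the specs of the jobs `WZ-N..`.
-/

namespace Pool.Agent.NH34.WZ

open Finset
open Pool.Agent.NH99.WZ

noncomputable section

/-- WZ-N1: elementary properties of `FB` and `F2` -/
def S_FB : Prop :=
  (∀ (m I J T : ℕ) (G : ℕ → ℕ → ℕ → ℝ) (κ : ℝ), FB m I J T G κ →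
    FB m J I T (fun i j τ => G j i τ) κ) ∧
  (∀ (m I J T I' J' : ℕ) (G : ℕ → ℕ → ℕ → ℝ) (κ κ' : ℝ), FB m I J T G κ → κ ≤ κ' → I' ≤ I →
    J' ≤ J → FB m I' J' T G κ') ∧
  (∀ (m I J T : ℕ) (G G' : ℕ → ℕ → ℕ → ℝ) (κ : ℝ), FB m I J T G κ →
    (∀ i < I, ∀ j < J, ∀ τ ≤ T, G i j τ = G' i j τ) → FB m I J T G' κ) ∧
  (∀ (m I J T : ℕ) (G G' : ℕ → ℕ → ℕ → ℝ) (κ κ' : ℝ), FB m I J T G κ → FB m I J T G' κ' →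
    FB m I J T (fun i j τ => G i j τ + G' i j τ) (κ + κ')) ∧
  (∀ (m I J T : ℕ) (G : ℕ → ℕ → ℕ → ℝ) (κ : ℝ), FB m I J T G κ → FB m I J T (fun i j τ => -G i j τ) κ) ∧
  (∀ (m I J T : ℕ) (G : ℕ → ℕ → ℕ → ℝ) (κ : ℝ), FB m I J T G κ →
    (∀ i < I, ∀ j < J, G i j 0 = 0) → Op I J (fun i j => G i j T) κ) ∧
  (∀ (m I J : ℕ) (f : ℕ → ℕ → ℝ) (κ : ℝ), F2 m I J f κ → F2 m J I (fun i j => f j i) κ) ∧
  (∀ (m I J : ℕ) (f g : ℕ → ℕ → ℝ) (κ κ' : ℝ), F2 m I J f κ → κ ≤ κ' →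
    (∀ i ≤ I, ∀ j ≤ J, f i j = g i j) → F2 m I J g κ') ∧
  (∀ (m I J : ℕ) (f : ℕ → ℕ → ℝ) (κ c : ℝ), F2 m I J f κ → F2 m I J (fun i j => c * f i j) (|c| * κ)) ∧
  (∀ (m I J : ℕ) (f g : ℕ → ℕ → ℝ) (κ κ' : ℝ), F2 m I J f κ → F2 m I J g κ' →
    F2 m I J (fun i j => f i j + g i j) (κ + κ')) ∧
  (∀ (m I J : ℕ) (f : ℕ → ℕ → ℝ) (κ : ℝ), F2 m I J f κ → (∀ i, f i 0 = 0) → (∀ j, f 0 j = 0) →
    |f I J| ≤ κ)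

/-- WZ-N2: expansion of functions with zero sides in Walsh functions -/
def S_F2E : Prop := ∀ (m I J : ℕ) (f : ℕ → ℕ → ℝ) (κ : ℝ), 0 ≤ κ → I < 2 ^ m → J < 2 ^ m →
  (∀ i, f i 0 = 0) → (∀ j, f 0 j = 0) → F2 m I J f κ →
  (∀ i ≤ I, ∀ j ≤ J, |f i j| ≤ ((m : ℝ) + 1) ^ 2 * κ) ∧
  ∃ C : ℕ → ℕ → ℝ, ∑ a ∈ range (2 ^ m), ∑ b ∈ range (2 ^ m), |C a b| ≤ ((m : ℝ) + 1) ^ 2 * κ ∧
    ∀ i ≤ I, ∀ j ≤ J, f i j =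
      ∑ a ∈ range (2 ^ m), ∑ b ∈ range (2 ^ m), C a b * (wal m a i * wal m b j)

/-- WZ-N3: products -/
def S_F2M : Prop := ∀ (m I J : ℕ) (f g : ℕ → ℕ → ℝ) (κ μ : ℝ), 0 ≤ κ → 0 ≤ μ →
  I < 2 ^ m → J < 2 ^ m → (∀ i, f i 0 = 0) → (∀ j, f 0 j = 0) → (∀ i, g i 0 = 0) →
  (∀ j, g 0 j = 0) → F2 m I J f κ → F2 m I J g μ →
  F2 m I J (fun i j => f i j * g i j) (4 * ((m : ℝ) + 1) ^ 2 * (κ * μ))

/-- WZ-N4: inverses -/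
def S_F2I : Prop := ∀ (m I J : ℕ) (z : ℕ → ℕ → ℝ) (κ : ℝ), 0 ≤ κ → I < 2 ^ m → J < 2 ^ m →
  (∀ i, z i 0 = 0) → (∀ j, z 0 j = 0) → 32 * ((m : ℝ) + 1) ^ 2 * κ ≤ 1 → F2 m I J z κ →
  F2 m I J (fun i j => 1 / (1 + z i j) - 1) (2 * κ) ∧
  F2 m I J (fun i j => 1 / (1 + z i j) ^ 2 - 1) (5 * κ) ∧
  F2 m I J (fun i j => 1 / (1 - z i j ^ 2) - 1) κ

/-- WZ-N5: products of families of matrices with functions -/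
def S_FBM : Prop := ∀ (m I J T : ℕ) (G h : ℕ → ℕ → ℕ → ℝ) (κ ω : ℝ),
  0 ≤ κ → 0 ≤ ω → I < 2 ^ m → T < 2 ^ m → (∀ i j, G i j 0 = 0) →
  (∀ j < J, (∀ i, h j i 0 = 0) ∧ (∀ τ, h j 0 τ = 0) ∧ F2 m I T (h j) ω) →
  FB m (I + 1) J T G κ →
  FB m (I + 1) J T (fun i j τ => G i j τ * h j i τ) (2 * ((m : ℝ) + 1) ^ 2 * (κ * ω))

/-- WZ-N6: the star product -/
def S_FBS : Prop := ∀ (m A B L : ℕ) (P R w : ℕ → ℕ → ℕ → ℝ) (κ κ' ω : ℝ),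
  0 ≤ κ → 0 ≤ κ' → 0 ≤ ω → A < 2 ^ m → B < 2 ^ m → L < 2 ^ m →
  (∀ a l, P a l 0 = 0) → (∀ b l, R b l 0 = 0) →
  FB m (A + 1) L B P κ → FB m (B + 1) L A R κ' →
  (∀ l < L, (∀ a, w l a 0 = 0) ∧ (∀ b, w l 0 b = 0) ∧ F2 m A B (w l) ω) →
  FB m (A + 1) (B + 1) L (fun a b t => ∑ l ∈ range t, P a l b * R b l a * (1 + w l a b))
    (((m : ℝ) + 1) ^ 2 * (1 + ((m : ℝ) + 1) ^ 2 * ω) * (κ * κ'))

/-! ### The system -/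

/-- hypotheses on the data -/
structure Dat (n : ℕ) (X : Fin 3 → ℕ → ℝ) (y : Ed → ℝ) : Prop where
  sgn : ∀ i v, X i v = 1 ∨ X i v = -1
  zero : ∀ r : Ed, ∑ i, r i ≠ n → y r = 0

/-- WZ-N7: the relations -/
def S_REL : Prop := ∀ (n : ℕ) (X : Fin 3 → ℕ → ℝ) (y : Ed → ℝ), Dat n X y →
  (∀ r : Ed, ∑ i, r i ≤ n + 2 → DD y r = 1) ∧
  (∀ (t : Fin 3) (r : Ed), DD y r ≠ 0 → DD y (up r t) = DD y r * (1 + X t (r t) * AA X y t r)) ∧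
  (∀ (t u : Fin 3) (r : Ed), t ≠ u → DD y r ≠ 0 → DD y (up r u) ≠ 0 →
    AA X y t (up r u) = AA X y t r +
      X u (r u) * PP X y (thd t u) r / (1 + X u (r u) * AA X y u r)) ∧
  (∀ (w : Fin 3) (r : Ed), DD y r ≠ 0 → DD y (up r w) ≠ 0 →
    PP X y w (up r w) = PP X y w r + X (w + 1) (r (w + 1)) * X (w + 2) (r (w + 2)) * y r -
      PP X y (w + 2) r * PP X y (w + 1) r / (1 + X w (r w) * AA X y w r) ^ 2) ∧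
  (∀ (t u : Fin 3) (r : Ed), t ≠ u → r u = 0 → AA X y t r = 0) ∧
  (∀ (w : Fin 3) (r : Ed), r w = 0 → PP X y w r = 0) ∧
  (∀ r : Ed, DD y r ≠ 0 → DD y (fun i => r i + 1) =
    DD y r * ((1 + X 0 (r 0) * AA X y 0 r) * (1 + X 1 (r 1) * AA X y 1 r) *
        (1 + X 2 (r 2) * AA X y 2 r) +
      X 1 (r 1) * X 2 (r 2) * PP X y 0 r * (1 + X 0 (r 0) * AA X y 0 r) +
      X 2 (r 2) * X 0 (r 0) * PP X y 1 r * (1 + X 1 (r 1) * AA X y 1 r) +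
      X 0 (r 0) * X 1 (r 1) * PP X y 2 r * (1 + X 2 (r 2) * AA X y 2 r)) + y r)

/-- the births at level `s` -/
def BB (m : ℕ) (X : Fin 3 → ℕ → ℝ) (y : Ed → ℝ) (s : Ed) (β : ℝ) : Prop :=
  ∀ w : Fin 3, ∀ a < 2 ^ m, Op (s (w + 1) + 1) (s (w + 2) + 1)
    (fun i j => ∑ τ ∈ range (s w),
      wal m a τ * (X (w + 1) i * X (w + 2) j * y (cl w (w + 1) τ i j))) β

/-- the biases at level `s` of the digits strictly below -/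
def BS (m : ℕ) (X : Fin 3 → ℕ → ℝ) (y : Ed → ℝ) (s : Ed) (δ : ℝ) : Prop :=
  ∀ t : Fin 3, ∀ v < s t, F2 m (s (t + 1)) (s (t + 2))
    (fun i j => AA X y t (cl t (t + 1) v i j)) δ

/-- WZ-N8: the covariances in a box -/
def S_PFB : Prop := ∀ (m n : ℕ) (β δ : ℝ) (X : Fin 3 → ℕ → ℝ) (y : Ed → ℝ) (s : Ed), Dat n X y →
  0 < β → 16 * β ≤ δ → 400 * ((m : ℝ) + 1) ^ 4 * δ ≤ 1 → (∀ i, s i < 2 ^ m) →
  (∀ r : Ed, r ≤ s → BB m X y r β ∧ BS m X y r δ) →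
  (∀ r : Ed, r ≤ s → 0 < DD y r) ∧
  (∀ (t : Fin 3) (r : Ed), r ≤ s → r t < s t → |AA X y t r| ≤ δ) ∧
  (∀ r : Ed, r ≤ s → ∀ w : Fin 3, FB m (r (w + 1) + 1) (r (w + 2) + 1) (r w)
    (fun i j τ => PP X y w (cl w (w + 1) τ i j)) (2 * β))

/-- the coefficient of `X u` in the increment of the bias of `t` in the direction `u` -/
def GG (X : Fin 3 → ℕ → ℝ) (y : Ed → ℝ) (t u : Fin 3) (r : Ed) : ℝ :=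
  PP X y (thd t u) r / (1 + X u (r u) * AA X y u r)

/-- numerical hypotheses -/
structure Num (m n : ℕ) (ρ β δ : ℝ) : Prop where
  rho : 0 ≤ ρ
  beta : 0 < β
  hρ : 8 * ρ * Real.sqrt ((n : ℝ) + 2) ≤ β
  hβ : 20 * β ≤ δ
  hδ : 1000 * ((m : ℝ) + 1) ^ 4 * δ ≤ 1
  hm : n + 2 ≤ 2 ^ m

/-- WZ-N9: bounds in a good box -/
def S_GFB : Prop := ∀ (m n : ℕ) (ρ β δ : ℝ) (X : Fin 3 → ℕ → ℝ) (y : Ed → ℝ) (q : Ed),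
  Dat n X y → Num m n ρ β δ → (∀ i, q i ≤ n) → Good m β δ X y q →
  (∀ r : Ed, r ≤ q → 0 < DD y r ∧ (∀ t, |AA X y t r| ≤ δ) ∧ ∀ w, |PP X y w r| ≤ 2 * β) ∧
  (∀ t u : Fin 3, t ≠ u → FB m (q t + 1) (q u + 1) (q (thd t u))
    (fun i j τ => GG X y t u (cl t u i j τ)) (3 * β))

/-- WZ-N10: one step beyond a good cell -/
def S_POS1 : Prop := ∀ (m n : ℕ) (ρ β δ : ℝ) (X : Fin 3 → ℕ → ℝ) (y : Ed → ℝ) (q r : Ed),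
  Dat n X y → (∀ r, |y r| ≤ ρ) → Num m n ρ β δ → (∀ i, q i ≤ n) → Good m β δ X y q → r ≤ q →
  (∀ t, 0 < DD y (up r t)) ∧ (∀ t u, t ≠ u → 0 < DD y (up (up r t) u)) ∧
  0 < DD y (fun i => r i + 1) ∧ (∀ t u, t ≠ u → |AA X y t (up r u)| ≤ 2 * δ) ∧
  (∀ w, |PP X y w (up r w)| ≤ 4 * β) ∧
  (∀ t u, t ≠ u → |GG X y t u r| ≤ 3 * β ∧ |GG X y t u (up r (thd t u))| ≤ 5 * β)

/-- WZ-N11: the births one step beyond -/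
def S_BB1 : Prop := ∀ (m n : ℕ) (ρ β : ℝ) (X : Fin 3 → ℕ → ℝ) (y : Ed → ℝ) (q s : Ed),
  Dat n X y → (∀ r, |y r| ≤ ρ) → 0 ≤ ρ → 8 * ρ * Real.sqrt ((n : ℝ) + 2) ≤ β → q ≤ s →
  (∀ i, s i ≤ q i + 1) → (∀ i, s i ≤ n + 1) → BB m X y q β → BB m X y s (2 * β)

/-- WZ-N12: the biases one step beyond -/
def S_BS1 : Prop := ∀ (m n : ℕ) (ρ β δ : ℝ) (X : Fin 3 → ℕ → ℝ) (y : Ed → ℝ) (q s : Ed),
  Dat n X y → (∀ r, |y r| ≤ ρ) → Num m n ρ β δ → (∀ i, q i ≤ n) → Good m β δ X y q → q ≤ s →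
  (∀ i, s i ≤ q i + 1) → BS m X y s (2 * δ)

/-- WZ-N13: from the box conditions to `LV` -/
def S_LVF : Prop := ∀ (m n : ℕ) (ρ β δ : ℝ) (X : Fin 3 → ℕ → ℝ) (y : Ed → ℝ) (s : Ed),
  Dat n X y → Num m n ρ β δ → (∀ i, s i ≤ n + 1) →
  (∀ r : Ed, r ≤ s → BB m X y r (2 * β) ∧ BS m X y r (2 * δ)) → LV m X y s (8 * β)

end

end Pool.Agent.NH34.WZ
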